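import Pool.Agent.P.MP_f30597_gt.SI.Gen

/-! The cap product with a fundamental cycle. -/

namespace Pool.Agent.P.MP_f30597_gt.SI

open Finset Matrix
open scoped TensorProduct

set_option linter.unusedSectionVars false

noncomputable section

variable {G ι : Type} [Group G] [Fintype ι] [DecidableEq ι]

/-- the involution as a linear map -/
def rinvL : ZG G →ₗ[ℤ] ZG G :=
  (AddMonoidHom.mk' rinv fun x y => by ext g; simp [rinv_coeff]).toIntLinearMap

theorem rinv_el (g : G) : rinvL (el g) = el g⁻¹ := by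
  classical
  ext t
  change (rinv (el g)).coeff t = _
  simp only [rinv_coeff, MonoidAlgebra.coeff_single, Finsupp.single_apply, inv_eq_iff_eq_inv]

theorem rinv_mul (x y : ZG G) : rinvL (x * y) = rinvL y * rinvL x := by
  induction x using zg_ind with
  | h0 => simp
  | h1 x x' h h' => rw [add_mul, map_add, h, h', map_add, mul_add]
  | h2 m g =>
    induction y using zg_ind with
    | h0 => simp
    | h1 y y' h h' => rw [mul_add, map_add, h, h', map_add, add_mul]
    | h2 k t =>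
      simp only [smul_mul_assoc, mul_smul_comm, map_zsmul, MonoidAlgebra.single_mul_single,
        one_mul, rinv_el, _root_.mul_inv_rev]
      rw [smul_comm]

theorem eps_rinv (x : ZG G) : eps (rinvL x) = eps x := by
  induction x using zg_ind with
  | h0 => simp
  | h1 x x' h h' => simp only [map_add, h, h']
  | h2 m g => simp only [map_zsmul, rinv_el, eps_el]

variable (Ψ : Bar G →ₗ[ZG G] (ι → ZG G)) (a : ι)

/-- the pairing -/
def pr : Bar G ⊗[ℤ] Bar G →ₗ[ℤ] Bar G := TensorProduct.lift <|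
  LinearMap.mk₂ ℤ (fun u v => rinvL (Ψ u a) • v) (fun u u' v => by simp [add_smul])
    (fun m u v => by rw [map_zsmul, Pi.smul_apply, map_zsmul, smul_assoc])
    (fun u v v' => smul_add _ _ _) fun m u v => smul_comm _ _ _

theorem pr_tmul (u v : Bar G) : pr Ψ a (u ⊗ₜ v) = rinvL (Ψ u a) • v := rfl

/-- the cap product -/
def cap : Bar G →ₗ[ℤ] Bar G := pr Ψ a ∘ₗ aw

theorem cap_sx (l : List G) : cap Ψ a (sx l) =
    ∑ j ∈ range l.length, rinvL (Ψ (sx (l.take (j + 1))) a) • sx (l.drop j) := by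
  rw [cap, LinearMap.comp_apply, aw_sx, map_sum]; rfl

theorem cap_tr (g : G) (l : List G) : cap Ψ a (sx (tr g l)) = cap Ψ a (sx l) := by
  rw [cap_sx, cap_sx, tr_length]
  refine sum_congr rfl fun j _ => ?_
  rw [show (tr g l).take (j + 1) = tr g (l.take (j + 1)) from List.map_take.symm,
    show (tr g l).drop j = tr g (l.drop j) from List.map_drop.symm, ← el_smul, ← el_smul, map_smul,
    Pi.smul_apply, smul_eq_mul, rinv_mul, rinv_el, smul_smul, mul_assoc,
    MonoidAlgebra.single_mul_single, inv_mul_cancel, one_mul, ← MonoidAlgebra.one_def, mul_one]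

variable {Ψ} {deg : ι → ℕ} {c : Matrix ι ι (ZG G)} {w : ι → ℤ}

theorem cap_bd (h : IsPsi deg c w Ψ) (u : Bar G) : cap Ψ a (bdZ u) =
    ∑ b, cst c a b • cap Ψ b u -
      (-1 : ℤ) ^ (deg a + 1) • (bdZ (cap Ψ a u) - eps (Ψ u a) • sx []) := by
  have h0 : ∀ v, Ψ (sgn v) a = (-1 : ℤ) ^ (deg a + 1) • Ψ v a := fun v =>
    sup_eq (S := Set.univ) (LinearMap.proj a ∘ₗ Ψ.restrictScalars ℤ ∘ₗ sgn)
      ((-1 : ℤ) ^ (deg a + 1) • LinearMap.proj a ∘ₗ Ψ.restrictScalars ℤ) (fun l _ => by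
        change Ψ (sgn (sx l)) a = (-1 : ℤ) ^ (deg a + 1) • Ψ (sx l) a
        rw [sgn_sx, map_zsmul, Pi.smul_apply]
        by_cases e : Ψ (sx l) a = 0
        · simp [e]
        · rw [h.hm l a e]) fun _ _ => trivial
  have h1 : ∀ t, pr Ψ a (bdZ.rTensor _ t) = ∑ b, cst c a b • pr Ψ b t := fun t => by
    induction t with
    | zero => simp
    | tmul x y =>
      rw [LinearMap.rTensor_tmul, pr_tmul, ← h.ch, vecMul, dotProduct, map_sum, sum_smul]
      exact sum_congr rfl fun b _ => by rw [rinv_mul, pr_tmul, mul_smul]; rfl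
    | add x y hx hy => simp only [map_add, hx, hy, smul_add, sum_add_distrib]
  have h2 : ∀ t, pr Ψ a (TensorProduct.map sgn bdZ t) =
      (-1 : ℤ) ^ (deg a + 1) • bdZ (pr Ψ a t) := fun t => by
    induction t with
    | zero => simp
    | tmul x y =>
      rw [TensorProduct.map_tmul, pr_tmul, pr_tmul, h0, map_zsmul, smul_assoc, bdZ_smul]
    | add x y hx hy => simp only [map_add, hx, hy, smul_add]
  induction u using bar_ind with
  | h0 => simp
  | h1 x y hx hy =>
    simp only [map_add, hx, hy, smul_add, sum_add_distrib, Pi.add_apply, add_smul, smul_sub]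
    abel
  | h2 m l =>
    have : cap Ψ a (bdZ (sx l)) = ∑ b, cst c a b • cap Ψ b (sx l) -
        (-1 : ℤ) ^ (deg a + 1) • (bdZ (cap Ψ a (sx l)) - eps (Ψ (sx l) a) • sx []) := by
      simp only [cap, LinearMap.comp_apply]
      rw [aw_bd, map_add, map_sub, map_sub, h1, h2, pr_tmul, pr_tmul, psi_nil h.hm, h0, map_zsmul,
        smul_assoc, smul_nil, eps_rinv, smul_sub]
      simp only [Pi.zero_apply, map_zero, zero_smul]
      abel
    simp only [map_zsmul, this, Pi.smul_apply, smul_sub, smul_sum, smul_comm m, smul_assoc]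

theorem cap_mem (h : IsPsi deg c w Ψ) {S : Set (List G)} (hS : ∀ g, ∀ l ∈ S, tr g l ∈ S)
    {u : Bar G} (hu : ∀ l ∈ u.support, l.drop (deg a) ∈ S) : cap Ψ a u ∈ Sup S hS :=
  sup_map (S := {l | l.drop (deg a) ∈ S}) (cap Ψ a) (Sup S hS).toAddSubgroup (fun l hl => by
    rw [cap_sx]
    refine sum_mem fun j hj => ?_
    by_cases e : Ψ (sx (l.take (j + 1))) a = 0
    · simp [e]
    · have := h.hm _ a e
      rw [List.length_take, min_eq_left (mem_range.1 hj : j + 1 ≤ _)] at this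
      exact (Sup S hS).smul_mem _ (sx_mem hS (Nat.succ_injective this ▸ hl))) hu

variable {n : ℕ} {w' : ι → ℤ} {z : Bar G}

theorem dual_deg (hn : ∀ a, deg a ≤ n) (R' : IsResolution (fun a => n - deg a) (cst c) w') (a : ι)
    (e : w' a ≠ 0) : deg a = n := by
  have := R'.aug_deg a e
  have := hn a
  omega

theorem dual_sum (R' : IsResolution (fun a => n - deg a) (cst c) w') (b : ι) :
    ∑ a, w' a * eps (c a b) = 0 := by
  rw [← (pat_cc R' b).2, aug_eq]
  exact sum_congr rfl fun a _ => congrArg _ (eps_rinv _).symm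

theorem hm_top (hn : ∀ a, deg a ≤ n) (x : ι → ZG G) (hx : x ∈ Hm deg (n + 1)) : x = 0 :=
  funext fun b => by_contra fun e => by have := hx b e; have := hn b; omega

theorem fund0 (R : IsResolution deg c w) (hn : ∀ a, deg a ≤ n) (hn0 : 0 < n)
    (R' : IsResolution (fun a => n - deg a) (cst c) w') (h : IsPsi deg c w Ψ) {β : ι → Bar G}
    (hβ : ∀ a, β a ∈ Len (deg a + 1) ∧ bdZ (β a) = w a • sx [] + ∑ b, c a b • β b) :
    ∑ a, w' a • β a ∈ Len (n + 1) ∧ co (bd (∑ a, w' a • β a)) = 0 ∧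
      ∀ a, eps (Ψ (∑ a, w' a • β a) a) = w' a := by
  obtain ⟨b1, b2, b3⟩ := psi_beta h hβ
  obtain ⟨t, t1, t2⟩ := exists_htpy R _ b1 b2 b3
  have d1 := dual_deg hn R'
  have d2 := dual_sum R'
  refine ⟨sum_mem fun a _ => ?_, ?_, fun a => ?_⟩
  · by_cases e : w' a = 0
    · simp [e]
    · exact zsmul_mem (d1 a e ▸ (hβ a).1) _
  · change Finsupp.lmapDomain ℤ ℤ nrm _ = 0
    have e1 : ∀ (r : ZG G) (v : Bar G), Finsupp.lmapDomain ℤ ℤ nrm (r • v) =
      eps r • Finsupp.lmapDomain ℤ ℤ nrm v := co_smul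
    simp only [bd_eq, map_sum, map_zsmul, fun a => (hβ a).2, map_add, e1, smul_add, smul_sum,
      smul_smul, sum_add_distrib]
    rw [sum_comm, sum_eq_zero, sum_eq_zero, add_zero]
    · exact fun b _ => by rw [← sum_smul, d2, zero_smul]
    · intro a _
      by_cases e : w' a = 0
      · simp [e]
      · simp [show w a = 0 from by_contra fun e' => by
          have := R.aug_deg a e'; have := d1 a e; omega]
  · have e2 : ∀ a', w' a' * eps (Ψ (β a') a) = w' a' * eps ((1 : Matrix ι ι (ZG G)) a' a) +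
        ∑ b, w' a' * eps (c a' b) * eps (t b a) := fun a' => by
      by_cases e : w' a' = 0
      · simp [e]
      · have : Ψ (β a') a = (1 : Matrix ι ι (ZG G)) a' a + (∑ b, t a' b * c b a +
          ∑ b, c a' b * t b a) := congrFun (congrFun (sub_eq_iff_eq_add'.1 t2) a') a
        rw [hm_top hn (t a') (by rw [← d1 a' e]; exact t1 a')] at this
        simp [this, mul_add, mul_sum, mul_assoc]
    rw [map_sum, Finset.sum_apply, map_sum]
    simp only [map_zsmul, Pi.smul_apply, smul_eq_mul, e2, sum_add_distrib]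
    rw [sum_comm, sum_eq_single a (fun b _ hb => by simp [one_apply_ne hb]) (by simp),
      sum_eq_zero (s := univ) fun b _ => by rw [← sum_mul, d2, zero_mul]]
    simp

theorem fund (R : IsResolution deg c w) (hn : ∀ a, deg a ≤ n) (hn0 : 0 < n)
    (R' : IsResolution (fun a => n - deg a) (cst c) w') (hz : IsFundCycle n z)
    (h : IsPsi deg c w Ψ) : ∃ k : ℤ, ∀ a, k * eps (Ψ z a) = w' a := by
  obtain ⟨β, hβ⟩ := exists_beta R
  obtain ⟨f1, f2, f3⟩ := fund0 R hn hn0 R' h hβ
  obtain ⟨k, u, hu, e⟩ := hz.gen _ f1 f2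
  refine ⟨k, fun a => ?_⟩
  let Y : Bar G →ₗ[ℤ] ℤ := eps.toLinearMap ∘ₗ LinearMap.proj a ∘ₗ Ψ.restrictScalars ℤ
  have hY : ∀ v, Y (co v) = eps (Ψ v a) := inv_co Y fun g l => by
    change eps (Ψ (sx (tr g l)) a) = eps (Ψ (sx l) a)
    rw [← el_smul, map_smul, Pi.smul_apply, smul_eq_mul, map_mul, eps_el, one_mul]
  have e1 := congrArg Y e
  rw [map_add, map_zsmul, hY, hY, hY, bd_eq, ← h.ch, hm_top hn _ (psi_hm h.hm hu), zero_vecMul,
    Pi.zero_apply, map_zero, add_zero, smul_eq_mul] at e1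
  rw [← e1, f3]

/-- the sign -/
def eta : ℕ → ℤ
  | 0 => 1
  | j + 1 => (-1) ^ (j + 1) * eta j

theorem eta_sq (j : ℕ) : eta j * eta j = 1 := by
  induction j with
  | zero => rfl
  | succ j ih => rw [eta, mul_mul_mul_comm, ih, ← mul_pow]; simp

/-- translates of faces of simplices of `z` -/
def Adm (z : Bar G) : Set (List G) := {l | ∃ σ ∈ z.support, ∃ τ g, τ.Sublist σ ∧ l = tr g τ}

theorem adm_tr (z : Bar G) (g : G) : ∀ l ∈ Adm z, tr g l ∈ Adm z := by
  rintro _ ⟨σ, hσ, τ, t, h, rfl⟩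
  exact ⟨σ, hσ, τ, g * t, h, tr_tr _ _ _⟩

theorem exists_small (R : IsResolution deg c w) (hn : ∀ a, deg a ≤ n) (hn0 : 0 < n)
    (R' : IsResolution (fun a => n - deg a) (cst c) w') (hz : IsFundCycle n z) :
    ∃ β : ι → Bar G, (∀ a, β a ∈ Len (deg a + 1) ∧ bdZ (β a) = w a • sx [] + ∑ b, c a b • β b) ∧
      ∀ a, β a ∈ Sup (Adm z) (adm_tr z) := by
  obtain ⟨Ψ, h⟩ := exists_psi R
  obtain ⟨Ψ', h'⟩ := exists_psi R'
  obtain ⟨β, hβ⟩ := exists_beta R
  obtain ⟨q1, q2, q3⟩ := psi_beta h' hβ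
  obtain ⟨k, hk⟩ := fund R hn hn0 R' hz h
  generalize hQ : (Matrix.of fun a => Ψ' (β a)) = Q at q2
  have hQ' : ∀ a, Ψ' (β a) = Q a := fun a => congrFun hQ a
  simp only [hQ'] at q1 q3
  obtain ⟨Γ, hΓ⟩ : ∃ Γ : ι → Bar G, ∀ a, Γ a = (k * eta n * eta (deg a)) • cap Ψ a z :=
    ⟨_, fun _ => rfl⟩
  have g1 : ∀ a, bdZ (Γ a) = w' a • sx [] + ∑ b, cst c a b • Γ b := fun a => by
    have e := cap_bd a h z
    rw [← inv_co _ (cap_tr Ψ a), ← bd_eq, hz.cycle, map_zero, eq_comm, sub_eq_zero] at e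
    have e1 : ∑ b, cst c a b • Γ b =
        (k * eta n * eta (deg a + 1)) • ∑ b, cst c a b • cap Ψ b z := by
      rw [smul_sum]
      refine sum_congr rfl fun b _ => ?_
      by_cases e' : c b a = 0
      · simp [cst, e', lap_rinv_zero]
      · rw [hΓ, R.graded b a e', smul_comm]
    have e2 : w' a = k * eta n * eta (deg a) * eps (Ψ z a) := by
      by_cases e' : Ψ z a = 0
      · simp [← hk, e']
      · rw [psi_hm h.hm hz.len a e', mul_assoc k, eta_sq, mul_one, hk]
    rw [e1, e, smul_smul, eta, e2, hΓ, map_zsmul, show k * eta n * ((-1) ^ (deg a + 1) *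
      eta (deg a)) * (-1) ^ (deg a + 1) = k * eta n * eta (deg a) by
        rcases neg_one_pow_eq_or ℤ (deg a + 1) with e | e <;> rw [e] <;> ring, smul_sub, smul_smul]
    abel
  refine ⟨fun a => ∑ b, Q a b • Γ b, fun a => ⟨sum_mem fun b _ => ?_, ?_⟩,
    fun a => sum_mem fun b _ => Submodule.smul_mem _ _ ?_⟩
  · by_cases e : Q a b = 0
    · simp [e]
    · rw [← q1 a b e, hΓ]
      refine Submodule.smul_mem _ _ (zsmul_mem (cap_mem b h _ fun l hl => ?_) _)
      change _ = n - deg b + 1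
      rw [List.length_drop, hz.len l hl]
      have := hn b
      omega
  · simp only [map_sum, bdZ_smul, g1, smul_add, smul_sum, smul_smul, sum_add_distrib]
    congr 1
    · rw [← q3, aug_eq, sum_smul]
      exact sum_congr rfl fun b _ => by rw [smul_comm, smul_nil, smul_smul]
    · rw [sum_comm, sum_comm (f := fun b e => (c a b * Q b e) • Γ e)]
      exact sum_congr rfl fun e _ => by
        rw [← sum_smul, ← sum_smul, ← mul_apply, ← mul_apply, q2]
  · rw [hΓ]
    exact zsmul_mem (cap_mem b h (adm_tr z) fun l hl =>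
      ⟨l, hl, _, 1, List.drop_sublist _ _, (tr_one _).symm⟩) _

end

end Pool.Agent.P.MP_f30597_gt.SI
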