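import Pool.Agent.P.MP_f30597_gt.SI.Defs

/-! Definition: the top homology of a group dies in the orbit complex of a `G`-set. -/

namespace Pool.Agent.P.MP_f30597_gt.SI

/-- The lists of elements of the `G`-set `Y` span the complex of ordered simplices with vertices in
`Y`, with boundary `bd`. The map `g ↦ g • y` sends every `n`-cycle of the coinvariants of the bar
complex of `G` to a boundary in the coinvariants of this complex. -/
def KillsHomology (G : Type) [Group G] {Y : Type} [MulAction G Y] (y : Y) (n : ℕ) : Prop :=
  ∀ z : List G →₀ ℤ, (∀ l ∈ z.support, l.length = n + 1) → co (bd z) = 0 →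
    ∃ (u : List Y →₀ ℤ) (v : G × List Y →₀ ℤ), (∀ l ∈ u.support, l.length = n + 2) ∧
      (∀ p ∈ v.support, p.2.length = n + 1) ∧
      z.mapDomain (List.map fun g => g • y) =
        bd u + (v.mapDomain (fun p => p.2.map fun s => p.1 • s) - v.mapDomain fun p => p.2)

end Pool.Agent.P.MP_f30597_gt.SI
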