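import Pool.Agent.P.MP_f30597_gt.SI.Par
import Pool.Agent.P.MP_f30597_gt.THETA
import Pool.Agent.P.MP_f30597_gt.LAB

/-! Almost equivariant maps from a `G`-set with amenable stabilisers to the group. -/

namespace Pool.Agent.P.MP_f30597_gt.SI

open Finset Filter

variable {G Y : Type} [Group G] [MulAction G Y]

theorem exists_rep (G Y : Type) [Group G] [MulAction G Y] : ∃ (r : Y → Y) (t : Y → G),
    (∀ s, t s • r s = s) ∧ ∀ (g : G) s, r (g • s) = r s := by
  choose t ht using fun s : Y => (Quotient.mk_out (s := MulAction.orbitRel G Y) s :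
    _ ∈ MulAction.orbit G s)
  exact ⟨_, fun s => (t s)⁻¹, fun s => inv_smul_eq_iff.2 (ht s).symm, fun g s =>
    congrArg Quotient.out (Quotient.sound (MulAction.mem_orbit s g))⟩

open Classical in
theorem exists_tau (S : Sof G) (hY : ∀ s : Y, IsAmenable (MulAction.stabilizer G s))
    (C : Finset G) (T : Finset Y) {δ : ℝ} (hδ : 0 < δ) :
    ∃ (P : Par G) (τ : Y → P.X → G), (∀ s, P.Tame (τ s)) ∧ ∀ᶠ i in P.S.l,
      ((univ.filter fun v => ¬ ∀ g ∈ C, ∀ s ∈ T,
        τ (g • s) (P.π i v) = g * τ s (g⁻¹ • P.π i v)).card : ℝ) ≤ δ * P.S.N i := by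
  obtain ⟨r, t, h1, h2⟩ := exists_rep G Y
  obtain ⟨a, ha⟩ : ∃ a : G → Y → G, ∀ g s, t (g • s) * a g s = g * t s :=
    ⟨fun g s => (t (g • s))⁻¹ * (g * t s), fun _ _ => mul_inv_cancel_left _ _⟩
  obtain ⟨E, hE⟩ : ∃ E : Y → Finset G, ∀ y,
    E y = (image₂ a C T).filter (· ∈ MulAction.stabilizer G y) := ⟨_, fun _ => rfl⟩
  have h3 : ∀ g ∈ C, ∀ s ∈ T, a g s ∈ E (r s) := fun g hg s hs => by
    rw [hE]
    refine mem_filter.2 ⟨mem_image₂_of_mem hg hs, MulAction.injective (t (g • s)) ?_⟩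
    beta_reduce
    rw [smul_smul, ha, mul_smul, h1, ← h2 g, h1]
  obtain ⟨η, hη, hη0⟩ : ∃ η : ℝ, η * (C.card * T.card + 1) = δ ∧ 0 < η :=
    ⟨δ / (C.card * T.card + 1), by field_simp, by positivity⟩
  choose F hF hF' using fun y => th_folner (hY y) (E y)
    (fun b hb => (mem_filter.1 (hE y ▸ hb)).2) (ε := η / (2 * (E y).card + 1)) (by positivity)
  choose lab hl hlab using fun i y => t_LAB G (Fin (S.N i)) (S.act i) (F y) (E y) _ (hF y) (hF' y)
  refine ⟨@Par.mk G _ S (G → ∀ y, F y) arrowAction fun i v k y => ⟨lab i y (S.act i k v), hl i y _⟩,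
    fun s ω => t s * ω (t s) (r s), fun s => ⟨(Set.finite_range fun k : F (r s) => t s * k).subset
      (by rintro _ ⟨ω, rfl⟩; exact ⟨_, rfl⟩), fun g => (S.ae_mul g (t s)).mono fun i v e => ?_⟩, ?_⟩
  · change t s * lab i _ (S.act i _ _) = t s * lab i _ (S.act i (g⁻¹⁻¹ * _) _)
    rw [e, inv_inv]
  have hg := Sof.ae_finset (S := S) C fun g _ => Sof.ae_finset T fun s _ =>
    (S.ae_mul (t (g • s)) (a g s)).and
      (((Sof.ae_inj (F (r s) ∪ (F (r s)).image fun k => a g s * k)).and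
        (Sof.ae_finset (F (r s)) fun k _ => S.ae_mul (a g s) k)).shift (t (g • s)))
  filter_upwards [hg.ev hη0] with i hi
  obtain ⟨B, hB, hi⟩ : ∃ B : Finset (Fin (S.N i)), _ = B ∧ (B.card : ℝ) ≤ η * S.N i :=
    ⟨_, rfl, hi⟩
  choose Q hQ hQ' using fun g (hg : g ∈ C) s (hs : s ∈ T) =>
    (⟨_, rfl, hlab i (r s) _ (h3 g hg s hs)⟩ : ∃ Q : Finset (Fin (S.N i)), _ = Q ∧
      (Q.card : ℝ) ≤ 2 * (η / (2 * (E (r s)).card + 1)) * (E (r s)).card *
        Fintype.card (Fin (S.N i)))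
  refine (Nat.cast_le.2 ((card_le_card (t := B ∪ C.attach.biUnion fun g => T.attach.biUnion
    fun s => (Q g.1 g.2 s.1 s.2).image (S.act i (t (g.1 • s.1))).symm) fun v hv => ?_).trans
      (card_union_le _ _))).trans ?_
  · rw [mem_union, or_iff_not_imp_left, ← hB, mem_filter, not_and, not_not]
    intro e
    by_contra e'
    refine (mem_filter.1 hv).2 fun g hg s hs => by_contra fun e1 => e' ?_
    obtain ⟨e2, e3, e4⟩ := e (mem_univ _) g hg s hs
    refine mem_biUnion.2 ⟨⟨g, hg⟩, mem_attach _ _, mem_biUnion.2 ⟨⟨s, hs⟩, mem_attach _ _,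
      mem_image.2 ⟨S.act i (t (g • s)) v, ?_, by simp⟩⟩⟩
    rw [← hQ]
    refine (@mem_filter _ _ (_) _ _).2 ⟨mem_univ _, e3, e4, fun e5 => e1 ?_⟩
    change t _ * lab i _ (S.act i _ _) = g * (t s * lab i _ (S.act i (g⁻¹⁻¹ * _) _))
    rw [h2, ← e5, e2, ← mul_assoc, ha, inv_inv, mul_assoc]
  · have e1 : ∀ g hg s hs, ((Q g hg s hs).card : ℝ) ≤ η * S.N i := fun g hg s hs =>
      (hQ' g hg s hs).trans (by
        rw [Fintype.card_fin]
        gcongr
        rw [mul_right_comm, ← mul_div_assoc, div_le_iff₀ (by positivity)]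
        nlinarith)
    have e2 : ((C.attach.biUnion fun g => T.attach.biUnion fun s => (Q g.1 g.2 s.1 s.2).image
        (S.act i (t (g.1 • s.1))).symm).card : ℝ) ≤ C.card * (T.card * (η * S.N i)) := by
      rw [← card_attach (s := C), ← card_attach (s := T), ← nsmul_eq_mul, ← sum_const]
      refine (Nat.cast_le.2 card_biUnion_le).trans ?_
      push_cast
      refine sum_le_sum fun g _ => ?_
      rw [← nsmul_eq_mul, ← sum_const]
      refine (Nat.cast_le.2 card_biUnion_le).trans ?_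
      push_cast
      exact sum_le_sum fun s _ => (Nat.cast_le.2 card_image_le).trans (e1 _ _ _ _)
    change _ ≤ δ * S.N i
    rw [← hη]
    push_cast
    linarith

end Pool.Agent.P.MP_f30597_gt.SI
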