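import Pool.Agent.P.MP_f30597_gt.SI.PData
import Pool.Agent.P.MP_f30597_gt.SI.Tau
import Pool.Agent.P.MP_f30597_gt.SI.Defs2

/-! Small parametrised fundamental cycles from a `G`-set with amenable stabilisers. -/

namespace Pool.Agent.P.MP_f30597_gt.SI

open Finset Matrix Filter MeasureTheory

set_option linter.unusedSectionVars false

noncomputable section

theorem bd_map {Y Z : Type} (f : Y → Z) (u : List Y →₀ ℤ) :
    bd (u.mapDomain (List.map f)) = (bd u).mapDomain (List.map f) := by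
  rw [bd, bd, Finsupp.sum_mapDomain_index (by simp) (by simp [mul_add, sum_add_distrib]),
    Finsupp.mapDomain_sum]
  exact Finsupp.sum_congr fun l _ => by
    simp only [Finsupp.mapDomain_finsetSum, List.eraseIdx_map, List.length_map,
      Finsupp.mapDomain_single]

theorem bd_len {Y : Type} {k : ℕ} {u : List Y →₀ ℤ} (hu : ∀ l ∈ u.support, l.length = k + 1) :
    ∀ l ∈ (bd u).support, l.length = k := by
  change _ ∈ Finsupp.supported ℤ ℤ {l : List Y | l.length = k}
  refine sum_mem fun l hl => sum_mem fun i hi => Finsupp.single_mem_supported ℤ _ ?_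
  change _ = k
  rw [List.length_eraseIdx_of_lt (mem_range.1 hi), hu l hl]
  rfl

variable {G ι : Type} [Group G] [Fintype ι] [DecidableEq ι]

namespace Par

variable {P : Par G} {J Y : Type}

/-- chains of simplices that depend on the parameter -/
def psh (f : J → P.X → List G) (hf : ∀ j, P.Tame (f j)) : (J →₀ ℤ) →+ P.Fn (Bar G) :=
  AddMonoidHom.mk' (fun v => ⟨fun x => v.mapDomain (f · x),
    Tame.det v.support (fun j _ => hf j) fun _ _ e => Finsupp.mapDomain_congr e⟩)
    fun _ _ => Subtype.ext (funext fun _ => Finsupp.mapDomain_add)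

theorem psh_len {f : J → P.X → List G} (hf : ∀ j, P.Tame (f j)) {v : J →₀ ℤ} {k : ℕ}
    (h : ∀ j ∈ v.support, ∀ x, (f j x).length = k) (x : P.X) : (psh f hf v).1 x ∈ Len k := by
  classical
  intro l hl
  obtain ⟨j, hj, rfl⟩ := mem_image.1 (Finsupp.mapDomain_support hl)
  exact h j hj x

theorem psh_card {f : J → P.X → List G} (hf : ∀ j, P.Tame (f j)) (v : J →₀ ℤ) (x : P.X) :
    ((psh f hf v).1 x).support.card ≤ v.support.card := by
  classical
  exact (card_le_card Finsupp.mapDomain_support).trans card_image_le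

theorem psh_el {f f' : J → P.X → List G} (hf : ∀ j, P.Tame (f j)) (hf' : ∀ j, P.Tame (f' j))
    {j j' : J} {g : G} (h : ∀ x, f' j' x = tr g (f j (g⁻¹ • x))) :
    psh f' hf' (Finsupp.single j' 1) = el g • psh f hf (Finsupp.single j 1) :=
  Subtype.ext (funext fun x => by
    rw [el_val]
    change Finsupp.mapDomain _ _ = el g • Finsupp.mapDomain _ _
    rw [Finsupp.mapDomain_single, Finsupp.mapDomain_single, el_smul, h])

theorem tame_map {τ : Y → P.X → G} (hτ : ∀ s, P.Tame (τ s)) (l : List Y) :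
    P.Tame fun x => l.map (τ · x) := by
  classical
  exact Tame.det l.toFinset (fun s _ => hτ s) fun _ _ e =>
    List.map_congr_left fun s hs => e s (List.mem_toFinset.2 hs)

/-- the chain map given by a family of maps -/
def pm {τ : Y → P.X → G} (hτ : ∀ s, P.Tame (τ s)) : (List Y →₀ ℤ) →+ P.Fn (Bar G) :=
  psh _ (tame_map hτ)

theorem pm_bd {τ : Y → P.X → G} (hτ : ∀ s, P.Tame (τ s)) (u : List Y →₀ ℤ) :
    mapL bdL (pm hτ u) = pm hτ (bd u) :=
  Subtype.ext (funext fun x => (bd_eq _).symm.trans (bd_map (τ · x) u))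

end Par

open Par

variable {deg : ι → ℕ} {c : Matrix ι ι (ZG G)} {w w' : ι → ℤ} {n : ℕ}

theorem cover_data {Y : Type} [MulAction G Y] (S : Sof G) (R : IsResolution deg c w)
    (hn : ∀ a, deg a ≤ n) (hn0 : 0 < n) (R' : IsResolution (fun a => n - deg a) (cst c) w')
    (hY : ∀ s : Y, IsAmenable (MulAction.stabilizer G s)) {y : Y} (hy : KillsHomology G y n)
    {δ : ℝ} (hδ : 0 < δ) : ∃ (S : Sof G) (κ : Type) (_ : Fintype κ) (_ : DecidableEq κ)
      (dκ : κ → ℕ), Data S deg dκ c δ := by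
  classical
  obtain ⟨Ψ, h⟩ := exists_psi R
  obtain ⟨β, hβ⟩ := exists_beta R
  obtain ⟨f1, f2, f3⟩ := fund0 R hn hn0 R' h hβ
  obtain ⟨z₀, hz⟩ : ∃ z₀, ∑ a, w' a • β a = z₀ := ⟨_, rfl⟩
  rw [hz] at f1 f2 f3
  obtain ⟨u, v, hu, hv, e⟩ := hy z₀ f1 f2
  obtain ⟨L, hL⟩ : ∃ L : ℕ, L = z₀.support.card + (bd u).support.card +
    (v.support.card + v.support.card) := ⟨_, rfl⟩
  obtain ⟨η, hη, hη0⟩ : ∃ η : ℝ, 2 ^ (n + 1) * (n + 1) ^ 2 * (L * η + 2 * η) = δ ∧ 0 < η :=
    ⟨δ / (2 ^ (n + 1) * (n + 1) ^ 2 * (L + 2)), by field_simp, by positivity⟩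
  obtain ⟨P, τ, hτ, hg⟩ := exists_tau S hY
    (z₀.support.biUnion List.toFinset ∪ v.support.image Prod.fst)
    (insert y (v.support.biUnion fun p => p.2.toFinset)) hη0
  have hT : ∀ g : G, P.Tame fun x => g * τ y (g⁻¹ • x) := fun g => ((hτ y).shift g).comp (g * ·)
  obtain ⟨A, hA⟩ : ∃ A : Bar G →ₗ[ZG G] P.Fn (Bar G), ∀ u, A u = pm hT u :=
    ⟨lin (pm hT).toIntLinearMap fun g l => psh_el (tame_map hT) (tame_map hT) fun x => by
      simp [tr, mul_assoc, mul_smul], fun _ => rfl⟩
  have a0 : A (sx []) = cn (sx []) :=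
    (hA _).trans (Subtype.ext (funext fun x => Finsupp.mapDomain_single))
  obtain ⟨U, hU⟩ := genF (P := P) (fun a => deg a + 1) (-c)
    (fun a b e => congrArg (· + 1) (R.graded a b (neg_ne_zero.1 e))) (by rw [neg_mul_neg, R.sq])
    bdL Len (fun k => Len (k + 1)) (fun _ => le_rfl) len_fill (fun a => A (β a) - cn (β a))
    (fun a x => sub_mem (hA _ ▸ psh_len _ (fun l hl _ => by simpa using (hβ a).1 l hl) x) (hβ a).1)
    fun a => by
      have e1 : mapL bdL (cn (P := P) (β a)) = cn (bdZ (β a)) := rfl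
      have e2 : mapL bdL (A (β a)) = A (bdZ (β a)) := by rw [hA, hA, pm_bd, bd_eq]
      simp only [map_sub, e1, e2, (hβ a).2, map_add, map_zsmul, map_sum, map_smul, a0,
        Matrix.neg_apply, neg_smul, smul_sub, sum_neg_distrib, sum_sub_distrib]
      abel
  have t1 : ∀ p : G × List Y, P.Tame fun x => p.2.map (τ · x) := fun p => tame_map hτ p.2
  have t2 : ∀ p : G × List Y, P.Tame fun x => tr p.1 (p.2.map (τ · (p.1⁻¹ • x))) :=
    fun p => ((t1 p).shift p.1).comp _
  obtain ⟨z, hz'⟩ : ∃ z, z = pm hT z₀ - pm hτ (bd u) - (psh _ t2 v - psh _ t1 v) := ⟨_, rfl⟩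
  have z1 : ∀ x, z.1 x = (pm hT z₀).1 x - (pm hτ (bd u)).1 x -
    ((psh _ t2 v).1 x - (psh _ t1 v).1 x) := fun x => by rw [hz']; rfl
  refine ⟨P.S, _, inferInstance, inferInstance, _, hη ▸ par_data (z := z) R hn R' h
    ⟨fun x => ?_, z₀, 1, ∑ a, w' a • U a - pm hτ u, f2, by simpa using f3, fun x => ?_,
      fun Φ hΦ => ?_⟩ (by positivity) hη0 (hg.mono fun i hi => ?_)⟩
  · rw [z1]
    exact sub_mem (sub_mem (psh_len _ (fun l hl _ => by simpa using f1 l hl) x)
      (psh_len _ (fun l hl _ => by simpa using bd_len hu l hl) x))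
      (sub_mem (psh_len _ (fun p hp _ => by simpa [tr] using hv p hp) x)
        (psh_len _ (fun p hp _ => by simpa using hv p hp) x))
  · refine sub_mem ((show ∑ a, w' a • U a ∈ pc (Len (n + 2)) from sum_mem fun a _ => ?_) x)
      (psh_len (tame_map hτ) (fun l hl _ => by simpa using hu l hl) x)
    by_cases e : w' a = 0
    · simp [e]
    · exact zsmul_mem (dual_deg hn R' a e ▸ (hU a).1) _
  · have e1 : ∀ v, Φ (psh _ t2 v) = Φ (psh _ t1 v) := fun v => by
      induction v using Finsupp.induction_linear with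
      | zero => simp
      | add a b ha hb => simp only [map_add, ha, hb]
      | single p m =>
        rw [← Finsupp.smul_single_one, map_zsmul, map_zsmul, map_zsmul, map_zsmul,
          psh_el t1 t2 fun _ => rfl, hΦ]
    have e2 : ∑ a, ∑ b, w' a • Φ (c a b • U b) = 0 := by
      rw [sum_comm]
      exact sum_eq_zero fun b _ => by
        simp only [invG Φ hΦ, smul_smul, ← sum_smul, dual_sum R' b, zero_smul]
    rw [hz', ← hA]
    simp only [← hz, map_sub, map_sum, map_zsmul, e1, pm_bd, (hU _).2, map_add,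
      Matrix.neg_apply, neg_smul, map_neg, smul_add, smul_sub, sum_add_distrib, sum_sub_distrib,
      smul_sum, smul_neg, sum_neg_distrib, e2]
    abel
  · obtain ⟨B, hB, hi⟩ : ∃ B : Finset (Fin (P.S.N i)), _ = B ∧ (B.card : ℝ) ≤ η * P.S.N i :=
      ⟨_, rfl, hi⟩
    rw [← sum_subset (subset_univ B) fun k _ hk => ?_]
    · refine (sum_le_card_nsmul _ _ (L : ℝ) fun k _ => Nat.cast_le.2 ?_).trans ?_
      · rw [z1, hL]
        exact (card_le_card Finsupp.support_sub).trans ((card_union_le _ _).trans (add_le_add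
          ((card_le_card Finsupp.support_sub).trans ((card_union_le _ _).trans
            (add_le_add (psh_card _ _ _) (psh_card _ _ _))))
          ((card_le_card Finsupp.support_sub).trans ((card_union_le _ _).trans
            (add_le_add (psh_card _ _ _) (psh_card _ _ _))))))
      · rw [nsmul_eq_mul, mul_comm, mul_assoc]
        gcongr
    · rw [← hB, mem_filter, not_and, not_not] at hk
      have e1 := congrArg (fun m => (pm hτ m).1 (P.π i k)) e
      have e2 : (pm hT z₀).1 (P.π i k) =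
          (pm hτ (z₀.mapDomain (List.map fun g => g • y))).1 (P.π i k) :=
        (Finsupp.mapDomain_congr fun l hl => (List.map_congr_left fun g hg =>
          (hk (mem_univ _) g (by simpa using Or.inl ⟨l, by simpa using hl, hg⟩) y
            (mem_insert_self _ _)).symm).trans (List.map_map (g := (τ · (P.π i k)))).symm).trans
          Finsupp.mapDomain_comp
      have e3 : (psh _ t2 v).1 (P.π i k) =
          (pm hτ (v.mapDomain fun p => p.2.map fun s => p.1 • s)).1 (P.π i k) :=
        (Finsupp.mapDomain_congr fun p hp => List.map_map.trans ((List.map_congr_left fun s hs =>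
          (hk (mem_univ _) p.1 (mem_union_right _ (mem_image_of_mem _ hp)) s (mem_insert_of_mem
            (mem_biUnion.2 ⟨p, hp, List.mem_toFinset.2 hs⟩))).symm).trans
              (List.map_map (g := (τ · (P.π i k)))).symm)).trans Finsupp.mapDomain_comp
      have e4 : (psh _ t1 v).1 (P.π i k) = (pm hτ (v.mapDomain fun p => p.2)).1 (P.π i k) :=
        Finsupp.mapDomain_comp
      simp only [map_add, map_sub] at e1
      rw [z1, e2, e3, e4, e1]
      simp

theorem asm_zero' {H : ℕ → Type} [∀ p, NormedAddCommGroup (H p)] [∀ p, InnerProductSpace ℂ (H p)]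
    [∀ p, CompleteSpace (H p)] {b : ∀ p, HilbertBasis (G × {a // deg a = p}) ℂ (H p)}
    {D : ∀ p q, H p →L[ℂ] H q}
    (hD : ∀ p q, IsRightMul (b p) (b q) (c.submatrix Subtype.val Subtype.val) (D p q))
    (hF : S_FINAL) (hn : ∀ a, deg a ≤ n) (R : IsResolution deg c w)
    (hd : ∀ δ : ℝ, 0 < δ → ∃ (S : Sof G) (κ : Type) (_ : Fintype κ) (_ : DecidableEq κ)
      (dκ : κ → ℕ), Data S deg dκ c δ) :
    (∀ p, l2Betti b D p = 0) ∧ IsL2Torsion b D n 0 := by
  obtain ⟨μ, K, hμ⟩ := asm_spec hD R.graded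
  obtain ⟨C, hC, h⟩ := hF n
  have h1 := fun δ hδ => (hd δ hδ).elim fun S ⟨κ, _, _, dκ, e⟩ =>
    h G ι κ S deg dκ c δ μ _ hn R.graded R.sq e fun p => (hμ p).2.1
  have h3 : ∀ p, (μ p).real {0} = 0 := fun p =>
    le_antisymm (le_of_forall_pos_le_add fun δ hδ => by simpa using ((h1 δ hδ).1 p).2)
      measureReal_nonneg
  refine ⟨fun p => (hμ p).1.trans (h3 p), μ, fun p => (hμ p).2.2 ((h1 1 one_pos).1 p).1, ?_⟩
  refine (mul_eq_zero_of_right _ (abs_nonpos_iff.1 (le_of_forall_pos_le_add fun δ hδ => ?_))).symm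
  simpa [mul_div_cancel₀ _ hC.ne'] using (h1 (δ / C) (by positivity)).2 h3

end

end Pool.Agent.P.MP_f30597_gt.SI
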