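import Pool.Agent.P.MP_f30597_gt.SI.Gen

/-! Restriction to a subgroup of finite index. -/

namespace Pool.Agent.P.MP_f30597_gt.SI

open Finset Matrix

set_option linter.unusedSectionVars false

noncomputable section

/-- a right transversal -/
structure Tv (K G T : Type) [Group K] [Group G] where
  /-- the inclusion -/
  j : K →* G
  /-- the representatives -/
  rep : T → G
  /-- the decomposition -/
  e : K × T ≃ G
  he : ∀ h t, e (h, t) = j h * rep t

theorem exists_tv {G : Type} [Group G] (K : Subgroup G) :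
    ∃ P : Tv K G (G ⧸ K), Function.Injective P.j := by
  refine ⟨⟨K.subtype, fun q => q.out⁻¹, Equiv.ofBijective (fun p => p.1 * p.2.out⁻¹) ⟨?_, ?_⟩,
    fun _ _ => rfl⟩, K.subtype_injective⟩
  · rintro ⟨h, q⟩ ⟨h', q'⟩ e
    have e1 : q = q' := by
      rw [← q.out_eq, ← q'.out_eq]
      refine QuotientGroup.eq.2 ?_
      rw [eq_inv_mul_iff_mul_eq.2 e, mul_assoc, mul_assoc, inv_mul_cancel, mul_one]
      exact K.mul_mem (K.inv_mem h.2) h'.2
    subst e1
    exact Prod.ext (Subtype.ext (mul_right_cancel e)) rfl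
  · intro g
    obtain ⟨h, e⟩ := QuotientGroup.mk_out_eq_mul K g⁻¹
    exact ⟨(h, (g⁻¹ : G)), by simp [e]⟩

namespace Tv

variable {K G T ι ι' ι'' : Type} [Group K] [Group G] [Fintype T] [DecidableEq T] [Fintype ι]
  [DecidableEq ι] [Fintype ι'] [DecidableEq ι'] [Fintype ι''] (P : Tv K G T)

/-- coordinates over the subgroup -/
def E : (ι → ZG G) →+ (ι × T → ZG K) :=
  AddMonoidHom.mk' (fun x p => MonoidAlgebra.ofCoeff ((x p.1).coeff.comapDomain
    (fun h => P.e (h, p.2)) fun _ _ _ _ e => congrArg Prod.fst (P.e.injective e)))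
    fun x y => by ext p h; simp

theorem E_coeff (x : ι → ZG G) (p : ι × T) (h : K) :
    (P.E x p).coeff h = (x p.1).coeff (P.j h * P.rep p.2) := congrArg (x p.1).coeff (P.he h p.2)

theorem E_inj : Function.Injective (P.E : (ι → ZG G) → _) := fun x y e => by
  ext a g
  obtain ⟨⟨h, t⟩, rfl⟩ := P.e.surjective g
  rw [P.he]
  exact (P.E_coeff x (a, t) h).symm.trans (e ▸ P.E_coeff y (a, t) h)

theorem E_smul (h : K) (x : ι → ZG G) : P.E (el (P.j h) • x) = el h • P.E x := by
  ext p k
  simp [E_coeff, mul_assoc]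

theorem E_rep (a : ι) (t : T) :
    P.E (Pi.single a (el (P.rep t)) : ι → ZG G) = Pi.single (a, t) 1 := by
  classical
  ext ⟨b, u⟩ k
  have : P.rep t = P.j k * P.rep u ↔ (1, t) = (k, u) := by
    rw [← P.he, ← P.e.apply_eq_iff_eq, P.he 1, map_one, one_mul]
  rw [E_coeff, Pi.single_apply, Pi.single_apply, apply_ite (fun x : ZG G => x.coeff _),
    apply_ite (fun x : ZG K => x.coeff _), MonoidAlgebra.one_def, MonoidAlgebra.coeff_single,
    MonoidAlgebra.coeff_single, Finsupp.single_apply, Finsupp.single_apply]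
  simp only [this, Prod.mk.injEq]
  by_cases e : b = a <;> by_cases e' : u = t <;> simp [e, e', Ne.symm]

theorem vec_ind {Q : (ι → ZG G) → Prop} (h0 : Q 0) (h1 : ∀ x y, Q x → Q y → Q (x + y))
    (h2 : ∀ (m : ℤ) (g : G) (a : ι), Q (m • Pi.single a (el g))) (x : ι → ZG G) : Q x := by
  rw [← univ_sum_single x]
  refine sum_induction _ Q h1 h0 fun a _ => ?_
  induction x a using zg_ind with
  | h0 => simpa using h0
  | h1 r s hr hs => rw [Pi.single_add]; exact h1 _ _ hr hs
  | h2 m g => rw [Pi.single_smul]; exact h2 m g a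

theorem single_el (a : ι) (g g' : G) :
    (Pi.single a (el (g * g')) : ι → ZG G) = el g • Pi.single a (el g') := by
  rw [← Pi.single_smul, smul_eq_mul, MonoidAlgebra.single_mul_single, one_mul]

theorem E_single (a : ι) (h : K) (t : T) :
    P.E (Pi.single a (el (P.e (h, t))) : ι → ZG G) = Pi.single (a, t) (el h) := by
  rw [P.he, single_el, E_smul, E_rep, ← Pi.single_smul, smul_eq_mul, mul_one]

theorem E_surj : Function.Surjective (P.E : (ι → ZG G) → _) := fun y => by
  induction y using vec_ind with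
  | h0 => exact ⟨0, map_zero _⟩
  | h1 x y hx hy => exact P.E.range.add_mem hx hy
  | h2 m h p => exact P.E.range.zsmul_mem ⟨_, P.E_single p.1 h p.2⟩ m

/-- restriction of matrices -/
def res (y : Matrix ι ι' (ZG G)) : Matrix (ι × T) (ι' × T) (ZG K) :=
  Matrix.of fun p => P.E (el (P.rep p.2) • y p.1)

theorem res_coeff (y : Matrix ι ι' (ZG G)) (p : ι × T) (q : ι' × T) (h : K) :
    (P.res y p q).coeff h = (y p.1 q.1).coeff ((P.rep p.2)⁻¹ * (P.j h * P.rep q.2)) := by
  simp [res, E_coeff]

theorem E_vecMul (x : ι → ZG G) (y : Matrix ι ι' (ZG G)) : P.E (x ᵥ* y) = P.E x ᵥ* P.res y := by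
  induction x using vec_ind with
  | h0 => simp
  | h1 x x' h h' => rw [add_vecMul, map_add, h, h', map_add, add_vecMul]
  | h2 m g a =>
    obtain ⟨⟨h, t⟩, rfl⟩ := P.e.surjective g
    rw [smul_vecMul, map_zsmul, map_zsmul, smul_vecMul, E_single, single_vecMul, single_vecMul,
      P.he, ← pat_smul_smul, E_smul]
    rfl

theorem E_aug (w : ι → ℤ) (x : ι → ZG G) : aug (fun p : ι × T => w p.1) (P.E x) = aug w x := by
  change augH _ _ = augH _ _
  induction x using vec_ind with
  | h0 => simp
  | h1 x x' h h' => simp only [map_add, h, h']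
  | h2 m g a =>
    obtain ⟨⟨h, t⟩, rfl⟩ := P.e.surjective g
    rw [map_zsmul, map_zsmul, map_zsmul, E_single]
    congr 1
    change aug _ _ = aug _ _
    rw [aug_eq, aug_eq, sum_eq_single (a, t) (fun b _ hb => by simp [hb]) (by simp),
      sum_eq_single a (fun b _ hb => by simp [hb]) (by simp)]
    simp [eps_el]

/-- restriction as a ring homomorphism -/
def resR : Matrix ι ι (ZG G) →+* Matrix (ι × T) (ι × T) (ZG K) where
  toFun := P.res
  map_one' := funext fun p => by
    refine Eq.trans (congrArg P.E ?_) ((P.E_rep p.1 p.2).trans ?_)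
    · ext b : 1; simp [one_apply, Pi.single_apply, eq_comm]
    · ext b : 1; simp [one_apply, Pi.single_apply, eq_comm]
  map_mul' x y := funext fun p => (congrArg P.E (smul_vecMul _ _ _).symm).trans (P.E_vecMul _ y)
  map_zero' := by ext p q h; simp [res_coeff]
  map_add' x y := by ext p q h; simp [res_coeff]

theorem res_cst (y : Matrix ι ι' (ZG G)) : P.res (cst y) = cst (P.res y) := by
  ext p q h
  simp [res_coeff, cst, rinv_coeff, mul_assoc]

theorem res_wtr (w : ι → ℝ) (y : Matrix ι ι (ZG G)) :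
    wtr (fun p : ι × T => w p.1) (P.res y) = Fintype.card T * wtr w y := by
  simp [wtr, res_coeff, Fintype.sum_prod_type, mul_sum]

theorem isResolution {deg : ι → ℕ} {c : Matrix ι ι (ZG G)} {w : ι → ℤ}
    (R : IsResolution deg c w) :
    IsResolution (fun p : ι × T => deg p.1) (P.res c) fun p => w p.1 where
  graded p q h := R.graded _ _ fun e => h (by ext k; simp [res_coeff, e])
  aug_deg p := R.aug_deg p.1
  aug_surj := R.aug_surj.elim fun x hx => ⟨P.E x, (P.E_aug w x).trans hx⟩
  exact x := by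
    obtain ⟨x, rfl⟩ := P.E_surj x
    rw [← E_vecMul, E_aug, map_eq_zero_iff _ P.E_inj, R.exact, P.E_surj.exists]
    simp only [← E_vecMul, P.E_inj.eq_iff]

/-- models of the subgroup -/
def sof (hj : Function.Injective P.j) (S : Sof G) : Sof K where
  Λ := S.Λ
  l := S.l
  ne := S.ne
  N := S.N
  pos := S.pos
  act i h := S.act i (P.j h)
  mul' g h := by simpa only [map_mul] using S.mul' (P.j g) (P.j h)
  free' g hg := S.free' _ ((map_ne_one_iff _ hj).2 hg)

end Tv

end

end Pool.Agent.P.MP_f30597_gt.SI
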