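import Pool.Agent.P.MP_f30597_gt.SI.Ret
import Pool.Agent.P.MP_f30597_gt.SI.Res

/-! The spectral bounds given by one fundamental cycle of a subgroup of finite index. -/

namespace Pool.Agent.P.MP_f30597_gt.SI

open Finset Matrix MeasureTheory

theorem main (hF : S_FINAL) (n : ℕ) (hn0 : 0 < n) : ∃ C : ℝ, 0 < C ∧
    ∀ (G ι : Type) [Group G] [Fintype ι] [DecidableEq ι] (_ : Sof G) (deg : ι → ℕ)
      (c : Matrix ι ι (ZG G)) (w w' : ι → ℤ) (μ : ℕ → Measure ℝ) (B : ℕ → ℝ) (V : ℝ),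
      IsResolution deg c w → (∀ a, deg a ≤ n) → IsResolution (fun a => n - deg a) (cst c) w' →
      (∀ p, Mom (μ p) (B p) fun j => wtr (ind deg p) ((c * cst c + cst c * c) ^ j)) →
      StableVolLe G n V →
      (∀ p, IntegrableOn Real.log (Set.Ioi 0) (μ p) ∧ (μ p).real {0} ≤ C * V) ∧
      ((∀ p, (μ p).real {0} = 0) → |∑ p ∈ range (n + 1),
        (-1) ^ p * (p : ℝ) * ∫ t in Set.Ioi 0, Real.log t ∂μ p| ≤ C * V) := by
  classical
  obtain ⟨C, hC, h⟩ := hF n
  obtain ⟨A, hA, hA0⟩ : ∃ A : ℝ, A = 2 ^ (n + 1) * (n + 1) ^ 2 ∧ 0 < A := ⟨_, rfl, by positivity⟩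
  have hCA : 0 < (1 + C) * A := by positivity
  refine ⟨(1 + C) * A, hCA, fun G ι _ _ _ S deg c w w' μ B V R hn R' hμ hV => ?_⟩
  have key : ∀ ε : ℝ, 0 < ε → (∀ p, IntegrableOn Real.log (Set.Ioi 0) (μ p) ∧
      (μ p).real {0} ≤ (1 + C) * A * V + ε) ∧ ((∀ p, (μ p).real {0} = 0) → |∑ p ∈ range (n + 1),
        (-1) ^ p * (p : ℝ) * ∫ t in Set.Ioi 0, Real.log t ∂μ p| ≤ (1 + C) * A * V + ε) := by
    intro ε hε
    obtain ⟨K, z, hK, hz, hl⟩ := hV _ (div_pos hε hCA)
    obtain ⟨P, hP⟩ := exists_tv K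
    have := Fintype.ofFinite (G ⧸ K)
    obtain ⟨m, hm⟩ : ∃ m, m = K.index := ⟨_, rfl⟩
    have m0 : m ≠ 0 := hm ▸ hK.index_ne_zero
    have m1 : (0 : ℝ) < m := by positivity
    have m2 : Fintype.card (G ⧸ K) = m := by rw [hm, Subgroup.index, Nat.card_eq_fintype_card]
    have m3 : (m : ENNReal) ≠ ⊤ := ENNReal.natCast_ne_top m
    have R2 := P.isResolution R'
    rw [P.res_cst] at R2
    obtain ⟨h1, h2⟩ := h K _ _ (P.sof hP S) _ _ _ _ (fun p => (m : ENNReal) • μ p) B
      (fun p => hn p.1) (P.isResolution R).graded (P.isResolution R).sq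
      (data_fund _ (P.isResolution R) (fun p => hn p.1) hn0 R2 hz) fun p =>
      ⟨(have := (hμ p).1; Measure.smul_finite _ m3), by simp [(hμ p).2.1], fun j => by
        rw [integral_smul_measure, (hμ p).2.2, ENNReal.toReal_natCast, smul_eq_mul, ← m2,
          ← P.res_wtr, ← P.res_cst]
        congr 1
        change P.resR _ = (P.resR _ * P.resR _ + P.resR _ * P.resR _) ^ j
        rw [map_pow, map_add, map_mul, map_mul]⟩
    have h3 : (Fintype.card (cells z) * (n + 1) ^ 2 : ℝ) ≤ m * (A * (V + ε / ((1 + C) * A))) := by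
      rw [Fintype.card_coe]
      calc _ ≤ 2 ^ (n + 1) * ((V + ε / ((1 + C) * A)) * m) * (n + 1) ^ 2 := by
            gcongr
            exact (cells_card hz.len).trans (by rw [hm]; gcongr)
        _ = _ := by rw [hA]; ring
    have h4 : 0 ≤ A * (V + ε / ((1 + C) * A)) :=
      (mul_nonneg_iff_of_pos_left m1).1 (le_trans (by positivity) h3)
    have h5 : (1 + C) * (A * (V + ε / ((1 + C) * A))) = (1 + C) * A * V + ε := by field_simp
    refine ⟨fun p => ⟨?_, ?_⟩, fun h0 => ?_⟩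
    · have := (h1 p).1
      rwa [IntegrableOn, Measure.restrict_smul,
        integrable_smul_measure (Nat.cast_ne_zero.2 m0) m3] at this
    · have := (h1 p).2.trans h3
      rw [measureReal_ennreal_smul_apply, ENNReal.toReal_natCast] at this
      have := le_of_mul_le_mul_left this m1
      nlinarith
    · have := (h2 fun p => by rw [measureReal_ennreal_smul_apply, h0, mul_zero]).trans
        (mul_le_mul_of_nonneg_left h3 hC.le)
      simp only [Measure.restrict_smul, integral_smul_measure, ENNReal.toReal_natCast, smul_eq_mul,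
        mul_left_comm _ (m : ℝ), ← mul_sum, abs_mul, Nat.abs_cast] at this
      have := le_of_mul_le_mul_left this m1
      linarith
  exact ⟨fun p => ⟨((key 1 one_pos).1 p).1, le_of_forall_pos_le_add fun ε hε =>
    ((key ε hε).1 p).2⟩, fun h0 => le_of_forall_pos_le_add fun ε hε => (key ε hε).2 h0⟩

end Pool.Agent.P.MP_f30597_gt.SI
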