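import Mathlib

/-! Definitions: the homogeneous bar complex, fundamental cycles, stable integral simplicial
volume. A `k`-simplex is a list of `k + 1` group elements. -/

namespace Pool.Agent.P.MP_f30597_gt.SI

noncomputable section

variable {G : Type} [Group G]

/-- The boundary of the homogeneous bar complex: the alternating sum of the faces. -/
def bd (z : List G →₀ ℤ) : List G →₀ ℤ :=
  z.sum fun l m => ∑ i ∈ Finset.range l.length, Finsupp.single (l.eraseIdx i) ((-1) ^ i * m)

/-- The image of a chain in the coinvariants: every simplex is translated so that its first vertex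
is `1`. -/
def co (z : List G →₀ ℤ) : List G →₀ ℤ :=
  z.mapDomain fun l => l.map fun t => (l.headD 1)⁻¹ * t

/-- `z` is an integral `n`-cycle of the bar complex whose class generates `H_n(G; ℤ)`. -/
structure IsFundCycle (n : ℕ) (z : List G →₀ ℤ) : Prop where
  len : ∀ l ∈ z.support, l.length = n + 1
  cycle : co (bd z) = 0
  gen : ∀ y : List G →₀ ℤ, (∀ l ∈ y.support, l.length = n + 1) → co (bd y) = 0 →
    ∃ (k : ℤ) (u : List G →₀ ℤ), (∀ l ∈ u.support, l.length = n + 2) ∧
      co y = k • co z + co (bd u)

/-- The stable integral simplicial volume of `G` in degree `n` is at most `V`. -/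
def StableVolLe (G : Type) [Group G] (n : ℕ) (V : ℝ) : Prop :=
  ∀ ε : ℝ, 0 < ε → ∃ (K : Subgroup G) (z : List K →₀ ℤ), K.FiniteIndex ∧ IsFundCycle n z ∧
    ∑ l ∈ z.support, |(z l : ℝ)| ≤ (V + ε) * K.index

end

end Pool.Agent.P.MP_f30597_gt.SI
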