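import Pool.Agent.P.MP_f30597_gt.PAT
import Pool.Agent.P.MP_f30597_gt.SI.Defs

/-! The bar complex as a module over the group ring. -/

namespace Pool.Agent.P.MP_f30597_gt.SI

open Finset
open scoped TensorProduct

set_option linter.unusedSectionVars false

noncomputable section

variable {G : Type} [Group G]

/-- chains -/
abbrev Bar (G : Type) : Type := List G →₀ ℤ

/-- a simplex as a chain -/
abbrev sx (l : List G) : Bar G := Finsupp.single l 1

/-- a group element in the group ring -/
abbrev el (g : G) : ZG G := MonoidAlgebra.single g 1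

/-- translation -/
def tr (g : G) (l : List G) : List G := l.map fun t => g * t

/-- normal form -/
def nrm (l : List G) : List G := tr (l.headD 1)⁻¹ l

theorem tr_one (l : List G) : tr 1 l = l := by simp [tr]

theorem tr_tr (g h : G) (l : List G) : tr g (tr h l) = tr (g * h) l := by simp [tr, mul_assoc]

theorem tr_length (g : G) (l : List G) : (tr g l).length = l.length := List.length_map _

theorem nrm_length (l : List G) : (nrm l).length = l.length := tr_length _ _

theorem nrm_tr (g : G) (l : List G) : nrm (tr g l) = nrm l := by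
  cases l with
  | nil => rfl
  | cons x l => rw [nrm, tr_tr, nrm]; simp [tr]

theorem tr_nrm (l : List G) : tr (l.headD 1) (nrm l) = l := by
  rw [nrm, tr_tr, mul_inv_cancel, tr_one]

theorem nrm_nrm (l : List G) : nrm (nrm l) = nrm l := nrm_tr _ _

/-- the action on chains -/
def rho : G →* Module.End ℤ (Bar G) where
  toFun g := Finsupp.lmapDomain ℤ ℤ (tr g)
  map_one' := by ext l : 2; simp [tr_one]
  map_mul' g h := by ext l : 2; simp [tr_tr]

instance barModule : Module (ZG G) (Bar G) :=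
  Module.compHom _ (MonoidAlgebra.lift ℤ (Module.End ℤ (Bar G)) G rho).toRingHom

theorem el_smul (g : G) (l : List G) : el g • sx l = sx (tr g l) := by
  change MonoidAlgebra.lift ℤ (Module.End ℤ (Bar G)) G rho (el g) (sx l) = _
  simp [rho]

theorem single_eq (g : G) (m : ℤ) : (MonoidAlgebra.single g m : ZG G) = m • el g := by simp

theorem zg_ind {P : ZG G → Prop} (h0 : P 0) (h1 : ∀ x y, P x → P y → P (x + y))
    (h2 : ∀ (m : ℤ) g, P (m • el g)) (r : ZG G) : P r :=
  MonoidAlgebra.induction_linear r h0 h1 fun g m => single_eq g m ▸ h2 m g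

theorem bar_ind {P : Bar G → Prop} (h0 : P 0) (h1 : ∀ x y, P x → P y → P (x + y))
    (h2 : ∀ (m : ℤ) l, P (m • sx l)) (u : Bar G) : P u :=
  Finsupp.induction_linear u h0 h1 fun l m => by simpa using h2 m l

/-- the augmentation of the group ring -/
def eps : ZG G →ₐ[ℤ] ℤ := MonoidAlgebra.lift ℤ ℤ G 1

theorem eps_el (g : G) : eps (el g) = 1 := by simp [eps]

theorem aug_eq {ι : Type} [Fintype ι] (w : ι → ℤ) (x : ι → ZG G) :
    aug w x = ∑ a, w a * eps (x a) := by
  simp [aug, eps, MonoidAlgebra.lift_apply]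

section Lin

variable {M : Type} [AddCommGroup M]

theorem inv_smul (f : Bar G →ₗ[ℤ] M) (h : ∀ g l, f (sx (tr g l)) = f (sx l)) (r : ZG G)
    (u : Bar G) : f (r • u) = eps r • f u := by
  induction r using zg_ind with
  | h0 => simp
  | h1 x y hx hy => rw [add_smul, map_add, hx, hy, map_add, add_smul]
  | h2 m g =>
    rw [smul_assoc, map_zsmul, map_zsmul, eps_el, smul_assoc, one_smul]
    congr 1
    induction u using bar_ind with
    | h0 => simp
    | h1 x y hx hy => rw [smul_add, map_add, hx, hy, map_add]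
    | h2 k l => rw [smul_comm, map_zsmul, el_smul, h, map_zsmul]

variable [Module (ZG G) M]

/-- an equivariant map is linear over the group ring -/
def lin (f : Bar G →ₗ[ℤ] M) (h : ∀ g l, f (sx (tr g l)) = el g • f (sx l)) :
    Bar G →ₗ[ZG G] M where
  toFun := f
  map_add' := map_add f
  map_smul' r u := by
    rw [RingHom.id_apply]
    induction r using zg_ind with
    | h0 => simp
    | h1 x y hx hy => rw [add_smul, map_add, hx, hy, add_smul]
    | h2 m g =>
      rw [smul_assoc, map_zsmul, smul_assoc]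
      congr 1
      induction u using bar_ind with
      | h0 => simp
      | h1 x y hx hy => rw [smul_add, map_add, hx, hy, map_add, smul_add]
      | h2 k l => rw [smul_comm, map_zsmul, el_smul, h, map_zsmul, smul_comm]

end Lin

theorem sup_le {S : Set (List G)} {P : Submodule ℤ (Bar G)} (h : ∀ l ∈ S, sx l ∈ P) {u : Bar G}
    (hu : ∀ l ∈ u.support, l ∈ S) : u ∈ P := by
  have : Finsupp.supported ℤ ℤ S ≤ P := by
    rw [Finsupp.supported_eq_span_single, Submodule.span_le]
    rintro _ ⟨l, hl, rfl⟩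
    exact h l hl
  exact this hu

/-- chains supported in an invariant set -/
def Sup (S : Set (List G)) (hS : ∀ g, ∀ l ∈ S, tr g l ∈ S) : Submodule (ZG G) (Bar G) where
  carrier := {u | ∀ l ∈ u.support, l ∈ S}
  add_mem' hx hy := (Finsupp.supported ℤ ℤ S).add_mem hx hy
  zero_mem' := by simp
  smul_mem' r u hu := by
    change r • u ∈ Finsupp.supported ℤ ℤ S
    induction r using zg_ind with
    | h0 => simp
    | h1 x y hx hy => rw [add_smul]; exact add_mem hx hy
    | h2 m g =>
      rw [smul_assoc]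
      refine Submodule.smul_mem _ m (sup_le (P := (Finsupp.supported ℤ ℤ S).comap
        (DistribSMul.toLinearMap ℤ (Bar G) (el g))) (fun l hl => ?_) hu)
      change el g • sx l ∈ Finsupp.supported ℤ ℤ S
      rw [el_smul]
      exact Finsupp.single_mem_supported ℤ 1 (hS g l hl)

theorem sx_mem {S : Set (List G)} (hS : ∀ g, ∀ l ∈ S, tr g l ∈ S) {l : List G} (h : l ∈ S) :
    sx l ∈ Sup S hS := Finsupp.single_mem_supported ℤ 1 h

theorem sup_map {M : Type} [AddCommGroup M] {S : Set (List G)} (f : Bar G →ₗ[ℤ] M)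
    (P : AddSubgroup M) (h : ∀ l ∈ S, f (sx l) ∈ P) {u : Bar G} (hu : ∀ l ∈ u.support, l ∈ S) :
    f u ∈ P := sup_le (P := P.toIntSubmodule.comap f) h hu

theorem sup_eq {M : Type} [AddCommGroup M] {S : Set (List G)} (f f' : Bar G →ₗ[ℤ] M)
    (h : ∀ l ∈ S, f (sx l) = f' (sx l)) {u : Bar G} (hu : ∀ l ∈ u.support, l ∈ S) :
    f u = f' u := sup_le (P := LinearMap.eqLocus f f') h hu

/-- chains of lists of length `k` -/
def Len (k : ℕ) : Submodule (ZG G) (Bar G) :=
  Sup {l | l.length = k} fun g l hl => (tr_length g l).trans hl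

theorem sx_len (l : List G) : sx l ∈ Len l.length := sx_mem _ rfl

/-- the cone -/
def cons (x : G) : Bar G →ₗ[ℤ] Bar G := Finsupp.lmapDomain ℤ ℤ (x :: ·)

theorem cons_sx (x : G) (l : List G) : cons x (sx l) = sx (x :: l) := Finsupp.mapDomain_single

/-- the boundary -/
def bdZ : Bar G →ₗ[ℤ] Bar G := Finsupp.linearCombination ℤ fun l =>
  ∑ i ∈ range l.length, (-1 : ℤ) ^ i • sx (l.eraseIdx i)

theorem bdZ_sx (l : List G) :
    bdZ (sx l) = ∑ i ∈ range l.length, (-1 : ℤ) ^ i • sx (l.eraseIdx i) := by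
  rw [bdZ, Finsupp.linearCombination_single, one_smul]

theorem bd_eq (u : Bar G) : bd u = bdZ u := by
  simp [bd, bdZ, Finsupp.linearCombination_apply, smul_sum, mul_comm]

theorem bdZ_nil : bdZ (sx ([] : List G)) = 0 := by simp [bdZ_sx]

theorem bdZ_cons (x : G) (u : Bar G) : bdZ (cons x u) = u - cons x (bdZ u) := by
  refine sup_eq (S := Set.univ) (bdZ ∘ₗ cons x) (LinearMap.id - cons x ∘ₗ bdZ) (fun l _ => ?_)
    fun _ _ => trivial
  change bdZ (cons x (sx l)) = sx l - cons x (bdZ (sx l))
  rw [cons_sx, bdZ_sx, bdZ_sx, List.length_cons, sum_range_succ', map_sum, add_comm,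
    sub_eq_add_neg, ← sum_neg_distrib]
  simp only [map_zsmul, cons_sx, pow_succ, mul_neg_one, neg_smul, List.eraseIdx_cons_succ]
  simp

theorem bdZ_bdZ (u : Bar G) : bdZ (bdZ u) = 0 := by
  refine sup_eq (S := Set.univ) (bdZ ∘ₗ bdZ) 0 (fun l _ => ?_) fun _ _ => trivial
  change bdZ (bdZ (sx l)) = 0
  induction l with
  | nil => rw [bdZ_nil, map_zero]
  | cons x l ih => rw [← cons_sx, bdZ_cons, map_sub, bdZ_cons, ih trivial]; simp

/-- the boundary is linear over the group ring -/
def bdL : Bar G →ₗ[ZG G] Bar G := lin bdZ fun g l => by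
  rw [bdZ_sx, bdZ_sx, tr_length, smul_sum]
  exact sum_congr rfl fun i _ => by rw [smul_comm, el_smul, tr, tr, List.eraseIdx_map]

theorem bdZ_smul (r : ZG G) (u : Bar G) : bdZ (r • u) = r • bdZ u := bdL.map_smul r u

theorem bdZ_mem {S T : Set (List G)} {hT : ∀ g, ∀ l ∈ T, tr g l ∈ T}
    (h : ∀ l ∈ S, ∀ i < l.length, l.eraseIdx i ∈ T) {u : Bar G} (hu : ∀ l ∈ u.support, l ∈ S) :
    bdZ u ∈ Sup T hT :=
  sup_map bdZ (Sup T hT).toAddSubgroup (fun l hl => by
    rw [bdZ_sx]
    exact sum_mem fun i hi => zsmul_mem (sx_mem hT (h l hl i (mem_range.1 hi))) _) hu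

theorem bdZ_len {k : ℕ} {u : Bar G} (hu : u ∈ Len (k + 1)) : bdZ u ∈ Len k :=
  bdZ_mem (S := {l | l.length = k + 1}) (fun l hl i hi => by
    change _ = k
    rw [List.length_eraseIdx_of_lt hi, hl]; rfl) hu

theorem len_fill (k : ℕ) (y : Bar G) (hy : y ∈ Len k) (h : bdL y = 0) :
    ∃ x ∈ Len (k + 1), bdL x = y :=
  ⟨cons 1 y, sup_map (S := {l | l.length = k}) (cons 1) (Len (k + 1)).toAddSubgroup
    (fun l hl => by rw [cons_sx]; exact (show l.length = k from hl) ▸ sx_len _) hy, by
    change bdZ _ = _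
    rw [bdZ_cons, show bdZ y = 0 from h]; simp⟩

theorem smul_nil (r : ZG G) : r • sx ([] : List G) = eps r • sx [] := by
  induction r using zg_ind with
  | h0 => simp
  | h1 x y hx hy => rw [add_smul, hx, hy, map_add, add_smul]
  | h2 m g => rw [smul_assoc, el_smul, map_smul, eps_el, smul_assoc, one_smul]; rfl

theorem smul_at_nil (r : ZG G) (u : Bar G) : (r • u) [] = eps r * u [] :=
  inv_smul (Finsupp.lapply []) (fun g l => by cases l <;> simp [tr]) r u

theorem len_at_nil {k : ℕ} {u : Bar G} (hu : u ∈ Len (k + 1)) : u [] = 0 := by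
  by_contra h
  exact absurd (hu [] (Finsupp.mem_support_iff.2 h)) (by simp)

/-- an invariant map factors through the coinvariants -/
theorem inv_co {M : Type} [AddCommGroup M] (f : Bar G →ₗ[ℤ] M)
    (h : ∀ g l, f (sx (tr g l)) = f (sx l)) (u : Bar G) : f (co u) = f u :=
  sup_eq (S := Set.univ) (f ∘ₗ Finsupp.lmapDomain ℤ ℤ nrm) f (fun l _ => by
    change f (Finsupp.mapDomain nrm (sx l)) = _
    rw [Finsupp.mapDomain_single]; exact h _ l) fun _ _ => trivial

theorem co_smul (r : ZG G) (u : Bar G) : co (r • u) = eps r • co u :=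
  inv_smul (Finsupp.lmapDomain ℤ ℤ nrm) (fun g l => by simp [nrm_tr]) r u

/-- the diagonal approximation -/
def aw : Bar G →ₗ[ℤ] Bar G ⊗[ℤ] Bar G := Finsupp.linearCombination ℤ fun l =>
  ∑ j ∈ range l.length, sx (l.take (j + 1)) ⊗ₜ sx (l.drop j)

theorem aw_sx (l : List G) :
    aw (sx l) = ∑ j ∈ range l.length, sx (l.take (j + 1)) ⊗ₜ sx (l.drop j) := by
  rw [aw, Finsupp.linearCombination_single, one_smul]

/-- the sign -/
def sgn : Bar G →ₗ[ℤ] Bar G := Finsupp.linearCombination ℤ fun l => (-1 : ℤ) ^ l.length • sx l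

theorem sgn_sx (l : List G) : sgn (sx l) = (-1 : ℤ) ^ l.length • sx l := by
  rw [sgn, Finsupp.linearCombination_single, one_smul]

theorem aw_cons (x : G) (u : Bar G) :
    aw (cons x u) = sx [x] ⊗ₜ cons x u + (cons x).rTensor _ (aw u) := by
  refine sup_eq (S := Set.univ) (aw ∘ₗ cons x) (TensorProduct.mk ℤ _ _ (sx [x]) ∘ₗ cons x +
    (cons x).rTensor _ ∘ₗ aw) (fun l _ => ?_) fun _ _ => trivial
  change aw (cons x (sx l)) = sx [x] ⊗ₜ cons x (sx l) + (cons x).rTensor _ (aw (sx l))
  rw [cons_sx, aw_sx, aw_sx, List.length_cons, sum_range_succ', map_sum, add_comm]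
  simp [cons_sx]

theorem sgn_cons (x : G) (u : Bar G) : sgn (cons x u) = -cons x (sgn u) := by
  refine sup_eq (S := Set.univ) (sgn ∘ₗ cons x) (-(cons x ∘ₗ sgn)) (fun l _ => ?_)
    fun _ _ => trivial
  change sgn (cons x (sx l)) = -cons x (sgn (sx l))
  rw [cons_sx, sgn_sx, sgn_sx, map_smul, cons_sx, List.length_cons, pow_succ, mul_neg_one, neg_smul]

theorem aw_bd (l : List G) : aw (bdZ (sx l)) = bdZ.rTensor _ (aw (sx l)) -
    TensorProduct.map sgn bdZ (aw (sx l)) - sx [] ⊗ₜ sx l + sgn (sx l) ⊗ₜ sx [] := by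
  induction l with
  | nil => simp [bdZ_nil, aw_sx, sgn_sx]
  | cons x l ih =>
    have h1 : ∀ t, bdZ.rTensor _ ((cons x).rTensor (Bar G) t) =
        t - (cons x).rTensor _ (bdZ.rTensor _ t) := fun t => by
      induction t with
      | zero => simp
      | tmul a b => simp [bdZ_cons, TensorProduct.sub_tmul]
      | add a b ha hb => simp only [map_add, ha, hb]; abel
    have h2 : ∀ t, TensorProduct.map sgn bdZ ((cons x).rTensor (Bar G) t) =
        -(cons x).rTensor _ (TensorProduct.map sgn bdZ t) := fun t => by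
      induction t with
      | zero => simp
      | tmul a b => simp [sgn_cons, TensorProduct.neg_tmul]
      | add a b ha hb => simp only [map_add, ha, hb]; abel
    have h3 : bdZ (sx [x]) = sx [] := by simp [bdZ_sx]
    have h4 : sgn (sx [x]) = -sx [x] := by simp [sgn_sx]
    rw [← cons_sx, bdZ_cons, map_sub, aw_cons, aw_cons, ih]
    simp only [map_add, map_sub, h1, h2, LinearMap.rTensor_tmul, TensorProduct.map_tmul, h3, h4,
      bdZ_cons, sgn_cons, TensorProduct.neg_tmul, TensorProduct.tmul_sub, cons_sx x []]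
    abel

end

end Pool.Agent.P.MP_f30597_gt.SI
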