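import Pool.Agent.P.MP_f30597_gt.SI.Bar
import Pool.Agent.P.MP_f30597_gt.Asm

/-! Chain maps and homotopies out of free complexes. -/

namespace Pool.Agent.P.MP_f30597_gt.SI

open Finset Matrix

set_option linter.unusedSectionVars false

noncomputable section

theorem gen {R M ι : Type} [Ring R] [AddCommGroup M] [Module R M] [Fintype ι] (deg : ι → ℕ)
    (c : Matrix ι ι R) (hc : ∀ a b, c a b ≠ 0 → deg a = deg b + 1) (h2 : c * c = 0)
    (d : M →ₗ[R] M) (Z Y : ℕ → Submodule R M) (hYZ : ∀ k, Y k ≤ Z (k + 1))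
    (hex : ∀ k, ∀ y ∈ Z k, d y = 0 → ∃ x ∈ Y k, d x = y) (θ : ι → M) (hθ : ∀ a, θ a ∈ Z (deg a))
    (hd : ∀ a, d (θ a) + ∑ b, c a b • θ b = 0) :
    ∃ h : ι → M, ∀ a, h a ∈ Y (deg a) ∧ d (h a) = θ a + ∑ b, c a b • h b := by
  have key : ∀ k, ∃ h : ι → M, ∀ a, h a ∈ Y (deg a) ∧
      (deg a < k → d (h a) = θ a + ∑ b, c a b • h b) := by
    intro k
    induction k with
    | zero => exact ⟨0, fun a => ⟨zero_mem _, fun h => absurd h (Nat.not_lt_zero _)⟩⟩
    | succ k ih =>
      obtain ⟨h, hh⟩ := ih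
      have h3 : ∀ a, deg a = k → ∃ x ∈ Y (deg a), d x = θ a + ∑ b, c a b • h b := fun a ha => by
        refine hex _ _ (add_mem (hθ a) (sum_mem fun b _ => ?_)) ?_
        · by_cases e : c a b = 0
          · simp [e]
          · rw [hc a b e]; exact Submodule.smul_mem _ _ (hYZ _ (hh b).1)
        · have h4 : ∀ b, d (c a b • h b) = c a b • θ b + ∑ e, (c a b * c b e) • h e := fun b => by
            by_cases e : c a b = 0
            · simp [e]
            · rw [map_smul, (hh b).2 (by have := hc a b e; omega), smul_add, smul_sum]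
              simp only [smul_smul]
          rw [map_add, map_sum, sum_congr rfl fun b _ => h4 b, sum_add_distrib, ← add_assoc, hd,
            zero_add, sum_comm]
          exact sum_eq_zero fun e _ => by rw [← sum_smul, ← mul_apply, h2]; simp
      choose! x hx using h3
      refine ⟨fun a => if deg a = k then x a else h a, fun a => ⟨?_, fun ha => ?_⟩⟩
      · beta_reduce
        split_ifs with e
        exacts [(hx a e).1, (hh a).1]
      · have h5 : ∑ b, c a b • (if deg b = k then x b else h b) = ∑ b, c a b • h b :=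
          sum_congr rfl fun b _ => by
            by_cases e : c a b = 0
            · simp [e]
            · rw [if_neg (by have := hc a b e; omega)]
        beta_reduce
        rw [h5]
        split_ifs with e
        exacts [(hx a e).2, (hh a).2 (by omega)]
  obtain ⟨h, hh⟩ := key (univ.sup deg + 1)
  exact ⟨h, fun a => ⟨(hh a).1, (hh a).2 (Nat.lt_succ_of_le (le_sup (mem_univ a)))⟩⟩

variable {G ι ι' : Type} [Group G] [Fintype ι] [DecidableEq ι] [Fintype ι'] [DecidableEq ι']

/-- homogeneous vectors -/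
def Hm (deg : ι → ℕ) (k : ℕ) : Submodule (ZG G) (ι → ZG G) where
  carrier := {x | ∀ b, x b ≠ 0 → deg b = k}
  add_mem' {x y} hx hy b hb := by
    by_cases e : x b = 0
    · exact hy b fun e' => hb (by simp [e, e'])
    · exact hx b e
  zero_mem' b hb := absurd rfl hb
  smul_mem' r x hx b hb := hx b fun e => hb (by simp [e])

/-- the augmentation as an additive map -/
def augH (w : ι → ℤ) : (ι → ZG G) →ₗ[ℤ] ℤ where
  toFun := aug w
  map_add' x y := by simp [aug_eq, mul_add, sum_add_distrib]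
  map_smul' m x := by simp [aug_eq, mul_sum, mul_left_comm]

theorem aug_smul (w : ι → ℤ) (r : ZG G) (x : ι → ZG G) : aug w (r • x) = eps r * aug w x := by
  simp [aug_eq, mul_sum, mul_left_comm]

theorem aug_vecMul (w : ι' → ℤ) (x : ι → ZG G) (y : Matrix ι ι' (ZG G)) :
    aug w (x ᵥ* y) = ∑ a, eps (x a) * aug w (y a) := by
  rw [vecMul_eq_sum]
  exact (map_sum (augH w) _ _).trans (sum_congr rfl fun a _ => aug_smul w _ _)

/-- the kernel of the augmentation -/
def augK (w : ι → ℤ) : Submodule (ZG G) (ι → ZG G) where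
  carrier := {x | aug w x = 0}
  add_mem' hx hy := (LinearMap.ker (augH w)).add_mem hx hy
  zero_mem' := (augH w).map_zero
  smul_mem' r x hx := (aug_smul w r x).trans (mul_eq_zero_of_right _ hx)

variable {deg : ι → ℕ} {c : Matrix ι ι (ZG G)} {w : ι → ℤ}

theorem hm_fill (R : IsResolution deg c w) (k : ℕ) (y : ι → ZG G) (hy : y ∈ Hm deg k ⊓ augK w)
    (h : c.vecMulLinear y = 0) : ∃ x ∈ Hm deg (k + 1), c.vecMulLinear x = y :=
  ⟨_, pat_fill_hom deg c k y, pat_fill_spec R hy.1 h hy.2⟩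

theorem hm_le (R : IsResolution deg c w) (k : ℕ) :
    Hm deg (k + 1) ≤ (Hm deg (k + 1) ⊓ augK w : Submodule (ZG G) _) :=
  fun _ hx => ⟨hx, pat_aug_hom R hx⟩

theorem hm_zero (R : IsResolution deg c w) {x : ι → ZG G} (hx : x ∈ Hm deg 0) : x ᵥ* c = 0 := by
  rw [vecMul_eq_sum]
  refine sum_eq_zero fun a _ => ?_
  by_cases e : x a = 0
  · simp [e]
  · rw [pat_row R (hx a e), smul_zero]

theorem exists_base (R : IsResolution deg c w) :
    ∃ x : ι → ZG G, x ∈ Hm deg 0 ∧ aug w x = 1 := by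
  obtain ⟨x, hx⟩ := R.aug_surj
  refine ⟨fun a => if deg a = 0 then x a else 0, fun b hb => by_contra fun e => hb (if_neg e), ?_⟩
  rw [← hx, aug_eq, aug_eq]
  refine sum_congr rfl fun a _ => ?_
  split_ifs with e
  · rfl
  · simp [show w a = 0 from by_contra fun h => e (R.aug_deg a h)]

theorem sum_smul_row (x : Matrix ι ι' (ZG G)) {κ : Type} (y : Matrix ι' κ (ZG G)) (a : ι) :
    ∑ b, x a b • y b = (x * y) a := (vecMul_eq_sum (x a) y).symm

theorem exists_htpy (R : IsResolution deg c w) (θ : Matrix ι ι (ZG G))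
    (h0 : ∀ a, θ a ∈ Hm deg (deg a)) (h1 : c * θ = θ * c) (h2 : ∀ a, aug w (θ a) = w a) :
    ∃ h : Matrix ι ι (ZG G), (∀ a, h a ∈ Hm deg (deg a + 1)) ∧ θ - 1 = h * c + c * h := by
  have e1 : ∀ a, (1 : Matrix ι ι (ZG G)) a = Pi.single a 1 := fun a => by
    ext b : 1; simp [one_apply, Pi.single_apply, eq_comm]
  obtain ⟨h, hh⟩ := gen deg (-c) (fun a b e => R.graded a b (neg_ne_zero.1 e))
    (by rw [neg_mul_neg, R.sq]) c.vecMulLinear (fun k => Hm deg k ⊓ augK w)
    (fun k => Hm deg (k + 1)) (hm_le R) (hm_fill R) (θ - 1 : Matrix ι ι (ZG G))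
    (fun a => ⟨sub_mem (h0 a) (e1 a ▸ pat_hom_single deg a), by
      change aug w (θ a - (1 : Matrix ι ι (ZG G)) a) = 0
      rw [pat_aug_sub, h2, e1, pat_aug_single, sub_self]⟩)
    fun a => by
      rw [sum_smul_row]
      change ((θ - 1) * c + -c * (θ - 1)) a = (0 : Matrix ι ι (ZG G)) a
      rw [sub_mul, neg_mul, mul_sub, h1]; simp
  refine ⟨h, fun a => (hh a).1, funext fun a => ?_⟩
  have := (hh a).2.trans (congrArg _ (sum_smul_row (-c) h a))
  rw [Matrix.neg_mul] at this
  exact (eq_add_neg_iff_add_eq.1 this).symm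

theorem exists_beta (R : IsResolution deg c w) : ∃ β : ι → Bar G, ∀ a,
    β a ∈ Len (deg a + 1) ∧ bdZ (β a) = w a • sx [] + ∑ b, c a b • β b :=
  gen deg c R.graded R.sq bdL Len (fun k => Len (k + 1)) (fun _ => le_rfl) len_fill
    (fun a => w a • sx []) (fun a => by
      by_cases e : w a = 0
      · simp [e]
      · rw [R.aug_deg a e]; exact zsmul_mem (sx_len []) _)
    fun a => by
      have := (pat_cc R a).2
      rw [aug_eq] at this
      rw [map_zsmul, show bdL (sx []) = 0 from bdZ_nil, smul_zero, zero_add,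
        sum_congr rfl fun b _ => by rw [smul_comm, smul_nil, smul_smul], ← sum_smul, this,
        zero_smul]

/-- a chain map from the bar complex to the resolution -/
structure IsPsi (deg : ι → ℕ) (c : Matrix ι ι (ZG G)) (w : ι → ℤ)
    (Ψ : Bar G →ₗ[ZG G] (ι → ZG G)) : Prop where
  hm : ∀ l b, Ψ (sx l) b ≠ 0 → deg b + 1 = l.length
  ch : ∀ u, Ψ u ᵥ* c = Ψ (bdZ u)
  au : ∀ u, aug w (Ψ u) = bdZ u []

/-- equivariant extension -/
def mkL {M : Type} [AddCommGroup M] [Module (ZG G) M] (f : List G → M) (h : f [] = 0) :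
    Bar G →ₗ[ZG G] M :=
  lin (Finsupp.linearCombination ℤ fun l => el (l.headD 1) • f (nrm l)) fun g l => by
    simp only [Finsupp.linearCombination_single, one_smul, nrm_tr]
    cases l with
    | nil => simp [show nrm ([] : List G) = [] from rfl, h]
    | cons x l => simp [tr, smul_smul, MonoidAlgebra.single_mul_single]

theorem mkL_sx {M : Type} [AddCommGroup M] [Module (ZG G) M] (f : List G → M) (h : f [] = 0)
    (l : List G) : mkL f h (sx l) = el (l.headD 1) • f (nrm l) :=
  (Finsupp.linearCombination_single _ _ _).trans (one_smul _ _)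

theorem sx_nrm (l : List G) : el (l.headD 1) • sx (nrm l) = sx l := by rw [el_smul, tr_nrm]

section

variable {Ψ : Bar G →ₗ[ZG G] (ι → ZG G)} (h : ∀ l b, Ψ (sx l) b ≠ 0 → deg b + 1 = l.length)

include h

theorem psi_len {k : ℕ} {u : Bar G} (hu : u ∈ Len k) : ∀ b, Ψ u b ≠ 0 → deg b + 1 = k :=
  sup_map (S := {l | l.length = k}) (Ψ.restrictScalars ℤ)
    (Hm (G := G) (fun b => deg b + 1) k).toAddSubgroup (fun l hl b hb => (h l b hb).trans hl) hu

theorem psi_hm {k : ℕ} {u : Bar G} (hu : u ∈ Len (k + 1)) : Ψ u ∈ Hm deg k :=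
  fun b hb => Nat.succ_injective (psi_len h hu b hb)

theorem psi_nil : Ψ (sx []) = 0 := funext fun b => by_contra fun e => by simpa using h [] b e

theorem psi_au (R : IsResolution deg c w) (h1 : ∀ x, aug w (Ψ (sx [x])) = 1) (u : Bar G) :
    aug w (Ψ u) = bdZ u [] := by
  refine sup_eq (S := Set.univ) (augH w ∘ₗ Ψ.restrictScalars ℤ) (Finsupp.lapply [] ∘ₗ bdZ)
    (fun l _ => ?_) fun _ _ => trivial
  change aug w (Ψ (sx l)) = bdZ (sx l) []
  match l with
  | [] => rw [psi_nil h, bdZ_nil]; exact (augH w).map_zero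
  | [x] => simp [h1, bdZ_sx]
  | x :: y :: l =>
    rw [pat_aug_hom R (psi_hm h (sx_len _)), len_at_nil (bdZ_len (sx_len (x :: y :: l)))]

end

theorem exists_psi (R : IsResolution deg c w) : ∃ Ψ, IsPsi deg c w Ψ := by
  have key : ∀ k, ∃ Ψ : Bar G →ₗ[ZG G] (ι → ZG G),
      (∀ l b, Ψ (sx l) b ≠ 0 → deg b + 1 = l.length) ∧ (∀ x, aug w (Ψ (sx [x])) = 1) ∧
      ∀ l, l.length ≤ k + 1 → Ψ (sx l) ᵥ* c = Ψ (bdZ (sx l)) := by
    intro k
    induction k with
    | zero =>
      obtain ⟨x₀, h0, h1⟩ := exists_base R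
      have e := mkL_sx (fun l : List G => if l.length = 1 then x₀ else 0) rfl
      simp only [nrm_length] at e
      generalize mkL (G := G) (M := ι → ZG G) _ _ = Ψ' at e
      refine ⟨Ψ', fun l b hb => ?_, fun x => ?_, fun l hl => ?_⟩
      · rw [e] at hb
        split_ifs at hb with e'
        · rw [e', (Hm deg 0).smul_mem _ h0 b hb]
        · simp at hb
      · simp [e, aug_smul, eps_el, h1]
      · match l with
        | [] => simp [e, bdZ_nil]
        | [x] =>
          rw [e, if_pos List.length_singleton, hm_zero R ((Hm deg 0).smul_mem _ h0)]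
          simp [bdZ_sx, e]
        | _ :: _ :: _ => simp at hl
    | succ k ih =>
      obtain ⟨Ψ, h1, h2, h3⟩ := ih
      have e := mkL_sx (fun l : List G => if l.length = k + 2 then
        pat_fill deg c k (Ψ (bdZ (sx l))) else Ψ (sx l)) (psi_nil h1)
      simp only [nrm_length] at e
      generalize mkL (G := G) (M := ι → ZG G) _ _ = Ψ' at e
      have e1 : ∀ l, l.length ≠ k + 2 → Ψ' (sx l) = Ψ (sx l) := fun l hl => by
        rw [e, if_neg hl, ← map_smul, sx_nrm]
      refine ⟨Ψ', fun l b hb => ?_, fun x => by rw [e1 _ (by simp), h2], fun l hl => ?_⟩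
      · by_cases e' : l.length = k + 2
        · rw [e, if_pos e'] at hb
          rw [e', (Hm deg (k + 1)).smul_mem _ (pat_fill_hom deg c k _) b hb]
        · exact h1 l b (e1 l e' ▸ hb)
      · have e2 : Ψ' (bdZ (sx l)) = Ψ (bdZ (sx l)) := by
          cases l with
          | nil => simp [bdZ_nil]
          | cons x l =>
            exact sup_eq (S := {m | m.length = l.length}) (Ψ'.restrictScalars ℤ)
              (Ψ.restrictScalars ℤ) (fun m hm => e1 m fun e => by
                rw [show m.length = l.length from hm] at e; simp at hl; omega)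
              (bdZ_len (sx_len (x :: l)))
        rw [e2]
        by_cases e' : l.length = k + 2
        · have h4 : bdZ (sx (nrm l)) ∈ Len (k + 1) :=
            bdZ_len (by rw [← e', ← nrm_length]; exact sx_len _)
          rw [e, if_pos e', smul_vecMul, pat_fill_spec R (psi_hm h1 h4) _ _, ← map_smul,
            ← bdZ_smul, sx_nrm]
          · refine (sup_eq (S := {m | m.length = k + 1})
              ((c.vecMulLinear ∘ₗ Ψ).restrictScalars ℤ) (Ψ.restrictScalars ℤ ∘ₗ bdZ)
              (fun m hm => h3 m (le_of_eq hm)) h4).trans ?_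
            change Ψ (bdZ (bdZ _)) = 0
            rw [bdZ_bdZ, map_zero]
          · rw [psi_au h1 R h2, bdZ_bdZ]; rfl
        · rw [e1 l e', h3 l (by omega)]
  obtain ⟨Ψ, h1, h2, h3⟩ := key (univ.sup deg + 1)
  refine ⟨Ψ, h1, fun u => sup_eq (S := Set.univ) ((c.vecMulLinear ∘ₗ Ψ).restrictScalars ℤ)
    (Ψ.restrictScalars ℤ ∘ₗ bdZ) (fun l _ => ?_) fun _ _ => trivial, psi_au h1 R h2⟩
  change Ψ (sx l) ᵥ* c = Ψ (bdZ (sx l))
  by_cases e : l.length ≤ univ.sup deg + 1 + 1
  · exact h3 l e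
  · obtain ⟨k, hk⟩ : ∃ k, l.length = k + 1 + 1 := ⟨l.length - 2, by omega⟩
    have h4 : ∀ j, univ.sup deg < j → ∀ x : ι → ZG G, x ∈ Hm deg j → x = 0 :=
      fun j hj x hx => funext fun b => by_contra fun e' =>
        absurd (le_sup (f := deg) (mem_univ b)) (by rw [hx b e']; omega)
    rw [h4 _ (by omega) _ (psi_hm h1 (hk ▸ sx_len l)),
      h4 k (by omega) _ (psi_hm h1 (bdZ_len (hk ▸ sx_len l))), zero_vecMul]

theorem psi_beta {deg' : ι' → ℕ} {c' : Matrix ι' ι' (ZG G)} {w' : ι' → ℤ}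
    {Ψ : Bar G →ₗ[ZG G] (ι' → ZG G)} (hΨ : IsPsi deg' c' w' Ψ) {β : ι → Bar G}
    (hβ : ∀ a, β a ∈ Len (deg a + 1) ∧ bdZ (β a) = w a • sx [] + ∑ b, c a b • β b) :
    (∀ a, Ψ (β a) ∈ Hm deg' (deg a)) ∧
      c * (Matrix.of fun a => Ψ (β a)) = (Matrix.of fun a => Ψ (β a)) * c' ∧
      ∀ a, aug w' (Ψ (β a)) = w a := by
  refine ⟨fun a => psi_hm hΨ.hm (hβ a).1, funext fun a => ?_, fun a => ?_⟩
  · rw [← sum_smul_row]
    change _ = Ψ (β a) ᵥ* c'
    rw [hΨ.ch, (hβ a).2, map_add, map_zsmul, psi_nil hΨ.hm, smul_zero, zero_add, map_sum]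
    exact sum_congr rfl fun b _ => (map_smul Ψ _ _).symm
  · rw [hΨ.au, (hβ a).2, Finsupp.add_apply, Finsupp.finsetSum_apply,
      sum_eq_zero fun b _ => by rw [smul_at_nil, len_at_nil (hβ b).1, mul_zero]]
    simp

end

end Pool.Agent.P.MP_f30597_gt.SI
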