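import Pool.Agent.P.MP_f30597_gt.SI.Par

/-! The cap product with a parametrised fundamental cycle. -/

namespace Pool.Agent.P.MP_f30597_gt.SI

open Finset Matrix
open scoped TensorProduct

set_option linter.unusedSectionVars false

noncomputable section

variable {G ι : Type} [Group G] [Fintype ι] [DecidableEq ι]

section Gen

variable {N : Type} [AddCommGroup N] [Module (ZG G) N] (Ψ : Bar G →ₗ[ZG G] (ι → ZG G)) (a : ι)
  (ν : Bar G →ₗ[ℤ] N)

/-- the pairing -/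
def prN : Bar G ⊗[ℤ] Bar G →ₗ[ℤ] N := TensorProduct.lift <|
  LinearMap.mk₂ ℤ (fun u v => rinvL (Ψ u a) • ν v) (fun u u' v => by simp [add_smul])
    (fun m u v => by rw [map_zsmul, Pi.smul_apply, map_zsmul, smul_assoc])
    (fun u v v' => by rw [map_add, smul_add]) fun m u v => by rw [map_zsmul, smul_comm]

theorem prN_tmul (u v : Bar G) : prN Ψ a ν (u ⊗ₜ v) = rinvL (Ψ u a) • ν v := rfl

/-- the cap product -/
def capN : Bar G →ₗ[ℤ] N := prN Ψ a ν ∘ₗ aw

/-- the evaluation -/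
def evN : Bar G →ₗ[ℤ] N := prN Ψ a ν ∘ₗ (TensorProduct.mk ℤ _ _).flip (sx [])

theorem evN_apply (u : Bar G) : evN Ψ a ν u = rinvL (Ψ u a) • ν (sx []) := rfl

theorem capN_sx (l : List G) : capN Ψ a ν (sx l) =
    ∑ j ∈ range l.length, rinvL (Ψ (sx (l.take (j + 1))) a) • ν (sx (l.drop j)) := by
  rw [capN, LinearMap.comp_apply, aw_sx, map_sum]; rfl

theorem pr_tr (g : G) (u : Bar G) (y : N) :
    rinvL (Ψ (el g • u) a) • el g • y = rinvL (Ψ u a) • y := by
  rw [map_smul, Pi.smul_apply, smul_eq_mul, rinv_mul, rinv_el, smul_smul, mul_assoc,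
    MonoidAlgebra.single_mul_single, inv_mul_cancel, one_mul, ← MonoidAlgebra.one_def, mul_one]

variable {Ψ} {deg : ι → ℕ} {c : Matrix ι ι (ZG G)} {w : ι → ℤ}

theorem capN_bd (h : IsPsi deg c w Ψ) (d : N →ₗ[ZG G] N) (hd : ∀ u, d (ν u) = ν (bdZ u))
    (l : List G) : capN Ψ a ν (bdZ (sx l)) = ∑ b, cst c a b • capN Ψ b ν (sx l) -
      (-1 : ℤ) ^ (deg a + 1) • (d (capN Ψ a ν (sx l)) - evN Ψ a ν (sx l)) := by
  have h0 : ∀ v, Ψ (sgn v) a = (-1 : ℤ) ^ (deg a + 1) • Ψ v a := fun v =>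
    sup_eq (S := Set.univ) (LinearMap.proj a ∘ₗ Ψ.restrictScalars ℤ ∘ₗ sgn)
      ((-1 : ℤ) ^ (deg a + 1) • LinearMap.proj a ∘ₗ Ψ.restrictScalars ℤ) (fun l _ => by
        change Ψ (sgn (sx l)) a = (-1 : ℤ) ^ (deg a + 1) • Ψ (sx l) a
        rw [sgn_sx, map_zsmul, Pi.smul_apply]
        by_cases e : Ψ (sx l) a = 0
        · simp [e]
        · rw [h.hm l a e]) fun _ _ => trivial
  have h1 : ∀ t, prN Ψ a ν (bdZ.rTensor _ t) = ∑ b, cst c a b • prN Ψ b ν t := fun t => by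
    induction t with
    | zero => simp
    | tmul x y =>
      rw [LinearMap.rTensor_tmul, prN_tmul, ← h.ch, vecMul, dotProduct, map_sum, sum_smul]
      exact sum_congr rfl fun b _ => by rw [rinv_mul, prN_tmul, mul_smul]; rfl
    | add x y hx hy => simp only [map_add, hx, hy, smul_add, sum_add_distrib]
  have h2 : ∀ t, prN Ψ a ν (TensorProduct.map sgn bdZ t) =
      (-1 : ℤ) ^ (deg a + 1) • d (prN Ψ a ν t) := fun t => by
    induction t with
    | zero => simp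
    | tmul x y =>
      rw [TensorProduct.map_tmul, prN_tmul, prN_tmul, h0, map_zsmul, smul_assoc, map_smul, hd]
    | add x y hx hy => simp only [map_add, hx, hy, smul_add]
  simp only [capN, LinearMap.comp_apply]
  rw [aw_bd, map_add, map_sub, map_sub, h1, h2, prN_tmul, prN_tmul, psi_nil h.hm, h0, map_zsmul,
    smul_assoc, evN_apply, smul_sub]
  simp only [Pi.zero_apply, map_zero, zero_smul]
  abel

end Gen

namespace Par

variable {P : Par G} (Ψ : Bar G →ₗ[ZG G] (ι → ZG G)) (a : ι)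

/-- the parametrised cap product -/
def Cap : P.Fn (Bar G) →+ P.Fn (Bar G) := ext (fun f => capN Ψ a (mu f)) fun f f' l => by
  simp only [capN_sx, mu_add, smul_add, sum_add_distrib]

/-- the parametrised evaluation -/
def Ev : P.Fn (Bar G) →+ P.Fn (Bar G) := ext (fun f => evN Ψ a (mu f)) fun f f' l => by
  simp only [evN_apply, mu_add, smul_add]

theorem Cap_mu (f : P.Fn ℤ) (u : Bar G) : Cap Ψ a (mu f u) = capN Ψ a (mu f) u := ext_mu _ _ f u

theorem Ev_mu (f : P.Fn ℤ) (u : Bar G) : Ev Ψ a (mu f u) = rinvL (Ψ u a) • mu f (sx []) :=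
  ext_mu _ _ f u

theorem Cap_inv (g : G) (m : P.Fn (Bar G)) : Cap Ψ a (el g • m) = Cap Ψ a m :=
  fn_eq ((Cap Ψ a).comp (DistribSMul.toAddMonoidHom (P.Fn (Bar G)) (el g))) _ m fun l _ f => by
    change Cap Ψ a (el g • mu f (sx l)) = _
    rw [el_mu, el_smul, Cap_mu, Cap_mu, capN_sx, capN_sx, tr_length]
    refine sum_congr rfl fun j _ => ?_
    rw [show (tr g l).take (j + 1) = tr g (l.take (j + 1)) from List.map_take.symm,
      show (tr g l).drop j = tr g (l.drop j) from List.map_drop.symm, ← el_smul, ← el_smul,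
      ← el_mu, pr_tr]

theorem Ev_inv (g : G) (m : P.Fn (Bar G)) : Ev Ψ a (el g • m) = Ev Ψ a m :=
  fn_eq ((Ev Ψ a).comp (DistribSMul.toAddMonoidHom (P.Fn (Bar G)) (el g))) _ m fun l _ f => by
    change Ev Ψ a (el g • mu f (sx l)) = _
    rw [el_mu, Ev_mu, Ev_mu, ← pr_tr Ψ a g (sx l), el_mu, el_smul g []]
    rfl

theorem cn_eq {F : Type} [AddCommGroup F] [Module (ZG G) F] (y : F) :
    (cn y : P.Fn F) = mu ⟨fun _ => 1, tame_const 1⟩ y :=
  Subtype.ext (funext fun _ => (one_smul ℤ y).symm)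

theorem bd_mu (f : P.Fn ℤ) (u : Bar G) : mapL bdL (mu f u) = mu f (bdZ u) :=
  Subtype.ext (funext fun _ => map_zsmul bdZ _ _)

variable {Ψ} {deg : ι → ℕ} {c : Matrix ι ι (ZG G)} {w : ι → ℤ}

theorem Cap_bd (h : IsPsi deg c w Ψ) (m : P.Fn (Bar G)) : Cap Ψ a (mapL bdL m) =
    ∑ b, cst c a b • Cap Ψ b m -
      (-1 : ℤ) ^ (deg a + 1) • (mapL bdL (Cap Ψ a m) - Ev Ψ a m) := by
  rw [dec m]
  simp only [map_sum, bd_mu, Cap_mu, capN_bd a _ h (mapL bdL) (bd_mu _), Ev_mu, evN_apply,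
    sum_sub_distrib, smul_sum, smul_sub]
  rw [sum_comm]

/-- translates of faces of simplices -/
def AdmX (z : P.Fn (Bar G)) (x : P.X) : Set (List G) :=
  {l | ∃ g σ τ, σ ∈ (z.1 (g⁻¹ • x)).support ∧ τ.Sublist σ ∧ l = tr g τ}

/-- admissible chains -/
def AdmM (z : P.Fn (Bar G)) : Submodule (ZG G) (P.Fn (Bar G)) :=
  pw (fun x => (Finsupp.supported ℤ ℤ (AdmX z x)).toAddSubgroup) fun g x _ hy =>
    sup_map (S := AdmX z (g⁻¹ • x)) (DistribSMul.toLinearMap ℤ (Bar G) (el g))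
      (Finsupp.supported ℤ ℤ (AdmX z x)).toAddSubgroup (by
        rintro _ ⟨t, σ, τ, h1, h2, rfl⟩
        change el g • sx _ ∈ Finsupp.supported ℤ ℤ (AdmX z x)
        rw [el_smul, tr_tr]
        exact Finsupp.single_mem_supported ℤ 1
          ⟨g * t, σ, τ, by rwa [_root_.mul_inv_rev, mul_smul], h2, rfl⟩) hy

theorem Cap_mem (h : IsPsi deg c w Ψ) (m : P.Fn (Bar G)) (Q : Submodule (ZG G) (P.Fn (Bar G)))
    (hQ : ∀ l ∈ occ m, mu (cf m l) (sx (l.drop (deg a))) ∈ Q) : Cap Ψ a m ∈ Q := by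
  rw [dec m, map_sum]
  refine sum_mem fun l hl => ?_
  rw [Cap_mu, capN_sx]
  refine sum_mem fun j hj => ?_
  by_cases e : Ψ (sx (l.take (j + 1))) a = 0
  · simp [e]
  · have := h.hm _ a e
    rw [List.length_take, min_eq_left (mem_range.1 hj : j + 1 ≤ _)] at this
    exact Q.smul_mem _ (Nat.succ_injective this ▸ hQ l hl)

variable {n : ℕ} {w' : ι → ℤ}

/-- a parametrised fundamental cycle -/
structure PF (Ψ : Bar G →ₗ[ZG G] (ι → ZG G)) (n : ℕ) (w' : ι → ℤ) (z : P.Fn (Bar G)) : Prop where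
  len : ∀ x, z.1 x ∈ Len (n + 1)
  ex : ∃ (z₀ : Bar G) (k : ℤ) (u : P.Fn (Bar G)), co (bd z₀) = 0 ∧
    (∀ a, k * eps (Ψ z₀ a) = w' a) ∧ (∀ x, u.1 x ∈ Len (n + 2)) ∧
    ∀ Φ : P.Fn (Bar G) →+ P.Fn (Bar G), (∀ (g : G) m, Φ (el g • m) = Φ m) →
      Φ z = Φ (cn z₀) + Φ (mapL bdL u)

theorem exists_smallP (R : IsResolution deg c w) (hn : ∀ a, deg a ≤ n)
    (R' : IsResolution (fun a => n - deg a) (cst c) w') (h : IsPsi deg c w Ψ)
    {z : P.Fn (Bar G)} (hz : PF Ψ n w' z) : ∃ β : ι → P.Fn (Bar G), ∀ a,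
      (∀ x, (β a).1 x ∈ Len (deg a + 1)) ∧
      mapL bdL (β a) = w a • cn (sx []) + ∑ b, c a b • β b ∧ β a ∈ AdmM z := by
  obtain ⟨z₀, k, u, h0, hk, hu, hΦ⟩ := hz.ex
  obtain ⟨Ψ', h'⟩ := exists_psi R'
  obtain ⟨β, hβ⟩ := exists_beta R
  obtain ⟨q1, q2, q3⟩ := psi_beta h' hβ
  generalize hQ : (Matrix.of fun a => Ψ' (β a)) = Q at q2
  have hQ' : ∀ a, Ψ' (β a) = Q a := fun a => congrFun hQ a
  simp only [hQ'] at q1 q3
  have c1 : ∀ a, Cap Ψ a (mapL bdL z) = 0 := fun a => by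
    have := hΦ ((Cap Ψ a).comp (mapL bdL).toAddMonoidHom) fun g m =>
      (congrArg (Cap Ψ a) ((mapL bdL).map_smul _ _)).trans (Cap_inv Ψ a g _)
    refine this.trans ?_
    change Cap Ψ a (mapL bdL (cn z₀)) + Cap Ψ a (mapL bdL (mapL bdL u)) = 0
    rw [show mapL bdL (mapL bdL u) = 0 from Subtype.ext (funext fun x => bdZ_bdZ _), map_zero,
      add_zero]
    have := inv_co ((Cap Ψ a).toIntLinearMap ∘ₗ (cn (P := P)).restrictScalars ℤ) (fun g l => by
      change Cap Ψ a (cn _) = Cap Ψ a (cn _)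
      rw [← el_smul, map_smul, Cap_inv]) (bd z₀)
    rw [h0, map_zero, bd_eq] at this
    exact this.symm
  have c2 : ∀ a, Ev Ψ a z = eps (Ψ z₀ a) • cn (sx []) := fun a => by
    rw [hΦ _ (Ev_inv Ψ a), cn_eq, Ev_mu, ← cn_eq, ← map_smul, smul_nil, eps_rinv, map_zsmul,
      add_eq_left]
    refine fn_eq ((Ev Ψ a).comp (mapL bdL).toAddMonoidHom) 0 u fun l hl f => ?_
    obtain ⟨x, hx⟩ := mem_occ.1 hl
    change Ev Ψ a (mapL bdL _) = 0
    rw [bd_mu, Ev_mu, ← h.ch, hm_top hn _ (psi_hm h.hm (hu x l hx ▸ sx_len l))]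
    simp
  obtain ⟨Γ, hΓ⟩ : ∃ Γ : ι → P.Fn (Bar G), ∀ a, Γ a = (k * eta n * eta (deg a)) • Cap Ψ a z :=
    ⟨_, fun _ => rfl⟩
  have g1 : ∀ a, mapL bdL (Γ a) = w' a • cn (sx []) + ∑ b, cst c a b • Γ b := fun a => by
    have e := Cap_bd a h z
    rw [c1, c2, eq_comm, sub_eq_zero] at e
    have e1 : ∑ b, cst c a b • Γ b =
        (k * eta n * eta (deg a + 1)) • ∑ b, cst c a b • Cap Ψ b z := by
      rw [smul_sum]
      refine sum_congr rfl fun b _ => ?_
      by_cases e' : c b a = 0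
      · simp [cst, e', lap_rinv_zero]
      · rw [hΓ, R.graded b a e', smul_comm]
    have e2 : w' a = k * eta n * eta (deg a) * eps (Ψ z₀ a) := by
      by_cases e' : w' a = 0
      · rw [mul_assoc k, mul_right_comm, hk, e', zero_mul]
      · rw [dual_deg hn R' a e', mul_assoc k, eta_sq, mul_one, hk]
    rw [e1, e, smul_smul, eta, e2, hΓ, map_zsmul, show k * eta n * ((-1) ^ (deg a + 1) *
      eta (deg a)) * (-1) ^ (deg a + 1) = k * eta n * eta (deg a) by
        rcases neg_one_pow_eq_or ℤ (deg a + 1) with e | e <;> rw [e] <;> ring, smul_sub, smul_smul]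
    abel
  refine ⟨fun a => ∑ b, Q a b • Γ b, fun a => ⟨show _ ∈ pc (Len (deg a + 1)) from
    sum_mem fun b _ => ?_, ?_, sum_mem fun b _ => Submodule.smul_mem _ _ ?_⟩⟩
  · by_cases e : Q a b = 0
    · simp [e]
    · rw [← q1 a b e, hΓ]
      refine Submodule.smul_mem _ _ (zsmul_mem (Cap_mem b h z (pc _) fun l hl x => ?_) _)
      refine (Len (G := G) _).toAddSubgroup.zsmul_mem ?_ _
      obtain ⟨y, hy⟩ := mem_occ.1 hl
      have := hn b
      have e1 : (l.drop (deg b)).length = n - deg b + 1 := by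
        rw [List.length_drop, hz.len y l hy]; omega
      exact e1 ▸ sx_len _
  · simp only [map_sum, map_smul, g1, smul_add, smul_sum, smul_smul, sum_add_distrib]
    congr 1
    · rw [← q3, aug_eq, sum_smul]
      exact sum_congr rfl fun b _ => by
        rw [smul_comm, ← map_smul, smul_nil, map_zsmul, smul_smul]
    · rw [sum_comm, sum_comm (f := fun b e => (c a b * Q b e) • Γ e)]
      exact sum_congr rfl fun e _ => by
        rw [← sum_smul, ← sum_smul, ← mul_apply, ← mul_apply, q2]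
  · rw [hΓ]
    refine zsmul_mem (Cap_mem b h z (AdmM z) fun l _ x => ?_) _
    change z.1 x l • sx _ ∈ Finsupp.supported ℤ ℤ (AdmX z x)
    by_cases e : z.1 x l = 0
    · simp [e]
    · exact zsmul_mem (Finsupp.single_mem_supported ℤ 1 (show _ ∈ AdmX z x from
        ⟨1, l, _, by simpa using e, List.drop_sublist _ _, (tr_one _).symm⟩)) _

end Par

end

end Pool.Agent.P.MP_f30597_gt.SI
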