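import Pool.Agent.P.MP_f30597_gt.SI.Cap

/-! The resolution is a homotopy retract of the complex spanned by a fundamental cycle. -/

namespace Pool.Agent.P.MP_f30597_gt.SI

open Finset Matrix Filter
open scoped Matrix.Norms.L2Operator

set_option linter.unusedSectionVars false

noncomputable section

variable {G ι : Type} [Group G] [DecidableEq G] [Fintype ι] [DecidableEq ι]

/-- the cells -/
def cells (z : Bar G) : Finset (List G) :=
  z.support.biUnion fun σ => σ.sublists.toFinset.image nrm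

theorem cells_card {n : ℕ} {z : Bar G} (h : ∀ l ∈ z.support, l.length = n + 1) :
    ((cells z).card : ℝ) ≤ 2 ^ (n + 1) * ∑ l ∈ z.support, |(z l : ℝ)| := by
  rw [mul_sum]
  refine (Nat.cast_le.2 card_biUnion_le).trans ?_
  rw [Nat.cast_sum]
  refine sum_le_sum fun l hl => ?_
  have h1 : (l.sublists.toFinset.image nrm).card ≤ 2 ^ (n + 1) :=
    card_image_le.trans ((List.toFinset_card_le _).trans_eq (by rw [List.length_sublists, h l hl]))
  have h2 : (1 : ℝ) ≤ |(z l : ℝ)| := by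
    exact_mod_cast Int.one_le_abs (Finsupp.mem_support_iff.1 hl)
  exact (Nat.cast_le.2 h1).trans (by push_cast; exact le_mul_of_one_le_right (by positivity) h2)

theorem adm_cell {z : Bar G} {l : List G} (h : l ∈ Adm z) : nrm l ∈ cells z := by
  obtain ⟨σ, hσ, τ, g, h, rfl⟩ := h
  exact mem_biUnion.2 ⟨σ, hσ, mem_image.2 ⟨τ, by simpa using h, (nrm_tr g τ).symm⟩⟩

theorem cell_adm {z : Bar G} (k : cells z) : k.1 ∈ Adm z := by
  obtain ⟨σ, hσ, h⟩ := mem_biUnion.1 k.2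
  obtain ⟨τ, h, e⟩ := mem_image.1 h
  exact ⟨σ, hσ, τ, _, by simpa using h, e.symm⟩

theorem adm_bd {z u : Bar G} (hu : u ∈ Sup (Adm z) (adm_tr z)) :
    bdZ u ∈ Sup (Adm z) (adm_tr z) :=
  bdZ_mem (by
    rintro _ ⟨σ, hσ, τ, g, h, rfl⟩ i -
    exact ⟨σ, hσ, τ.eraseIdx i, g, (List.eraseIdx_sublist _ _).trans h,
      List.eraseIdx_map _ _ _⟩) hu

/-- coordinates -/
def crd (z : Bar G) : Bar G →ₗ[ZG G] (cells z → ZG G) :=
  mkL (fun l k => if k.1 = l ∧ l ≠ [] then 1 else 0) (by ext k : 1; simp)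

theorem crd_sx (z : Bar G) (l : List G) (k : cells z) :
    crd z (sx l) k = if k.1 = nrm l ∧ nrm l ≠ [] then el (l.headD 1) else 0 := by
  rw [crd, mkL_sx]; simp

theorem crd_hm (z : Bar G) (l : List G) (k : cells z) (h : crd z (sx l) k ≠ 0) :
    k.1.length - 1 + 1 = l.length := by
  rw [crd_sx] at h
  obtain ⟨h1, h2⟩ := (ite_ne_right_iff.1 h).1
  rw [← h1] at h2
  rw [← nrm_length l, ← h1, Nat.sub_add_cancel (List.length_pos_iff.2 h2)]

theorem crd_mul {z : Bar G} {κ : Type} (Φ : Bar G →ₗ[ZG G] (κ → ZG G)) (h : Φ (sx []) = 0)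
    {u : Bar G} (hu : u ∈ Sup (Adm z) (adm_tr z)) :
    crd z u ᵥ* (Matrix.of fun k : cells z => Φ (sx k.1)) = Φ u :=
  sup_eq (S := Adm z) (((Matrix.of fun k : cells z => Φ (sx k.1)).vecMulLinear ∘ₗ
    crd z).restrictScalars ℤ) (Φ.restrictScalars ℤ) (fun l hl => by
    change crd z (sx l) ᵥ* _ = Φ (sx l)
    rw [vecMul_eq_sum, sum_eq_single ⟨_, adm_cell hl⟩ (fun k _ hk => by
      rw [crd_sx, if_neg fun e => hk (Subtype.ext e.1), zero_smul]) (by simp), crd_sx]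
    cases l with
    | nil => simp [show nrm ([] : List G) = [] from rfl, h]
    | cons x l =>
      rw [if_pos ⟨rfl, by simp [nrm, tr]⟩]
      exact (map_smul Φ _ _).symm.trans (congrArg Φ (sx_nrm _))) hu

theorem crd_small (z : Bar G) {V : Type} [Fintype V] [DecidableEq V] (act : G → Equiv.Perm V)
    (v : V) (l : List G) : ∑ q, |pl act v (crd z (bdZ (sx l))) q| ≤ l.length := by
  have h1 : ∀ m, ∑ q, |pl act v (crd z (sx m)) q| ≤ 1 := fun m => by
    by_cases e : nrm m ∈ cells z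
    · refine (sum_le_sum (g := fun q => if q = (⟨_, e⟩, act (m.headD 1) v) then 1 else 0)
        fun q _ => ?_).trans_eq (by simp)
      rw [pl, crd_sx]
      split_ifs with e1 e2 e2
      · simp [e2]
      · rw [MonoidAlgebra.coeff_single, Finsupp.sum_single_index (by simp),
          if_neg fun e3 => e2 (Prod.ext (Subtype.ext e1.1) e3.symm), abs_zero]
      all_goals simp
    · refine (sum_eq_zero fun q _ => ?_).trans_le zero_le_one
      rw [pl, crd_sx, if_neg fun e1 => e (by rw [← e1.1]; exact q.1.2)]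
      simp
  rw [bdZ_sx, map_sum, pl_sum]
  calc _ ≤ ∑ q, ∑ i ∈ range l.length, |pl act v (crd z (sx (l.eraseIdx i))) q| :=
        sum_le_sum fun q _ => by
          rw [Finset.sum_apply]
          refine (abs_sum_le_sum_abs _ _).trans_eq (sum_congr rfl fun i _ => ?_)
          rw [map_zsmul, pl_zsmul]; simp [abs_mul]
    _ ≤ ∑ _i ∈ range l.length, (1 : ℝ) := by rw [sum_comm]; exact sum_le_sum fun i _ => h1 _
    _ = _ := by simp

theorem data_of {κ : Type} [Fintype κ] [DecidableEq κ] (S : Sof G) {deg : ι → ℕ} {dκ : κ → ℕ}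
    {c h : Matrix ι ι (ZG G)} {φ : Matrix ι κ (ZG G)} {ψ : Matrix κ ι (ZG G)}
    {s : Matrix κ κ (ZG G)} (d1 : ∀ a, φ a ∈ Hm dκ (deg a)) (d2 : ∀ k, ψ k ∈ Hm deg (dκ k))
    (d3 : ∀ a, h a ∈ Hm deg (deg a + 1)) (d4 : ∀ k k', s k k' ≠ 0 → dκ k = dκ k' + 1)
    (e1 : c * φ = φ * s) (e2 : s * ψ = ψ * c) (e3 : φ * ψ - 1 = h * c + c * h) {m : ℝ}
    (hm : 1 ≤ m) (hs : ∀ i v k, ∑ q, |pl (S.act i) v (s k) q| ≤ m) :
    Data S deg dκ c (Fintype.card κ * m ^ 2) := by
  obtain ⟨M1, h1⟩ := Sof.nrm_mdl (S := S) φ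
  obtain ⟨M2, h2⟩ := Sof.nrm_mdl (S := S) ψ
  obtain ⟨M3, h3⟩ := Sof.nrm_mdl (S := S) h
  obtain ⟨M4, h4⟩ := Sof.nrm_mdl (S := S) s
  refine ⟨max (max M1 M2) (max M3 M4), fun i => mdl (S.act i) φ, fun i => mdl (S.act i) ψ,
    fun i => mdl (S.act i) h, fun i => mdl (S.act i) s,
    fun i => ⟨by simp [h1 i], by simp [h2 i], by simp [h3 i], by simp [h4 i]⟩,
    fun i => ⟨isInt_loc _ _, isInt_loc _ _, isInt_loc _ _, isInt_loc _ _⟩,
    fun i => ⟨deg_loc _ fun p b e => by simp [d1 _ b e], deg_loc _ fun p b e => by simp [d2 _ b e],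
      deg_loc _ fun p b e => by simp [d3 _ b e], deg_loc _ fun p b e => by simp [d4 _ b e]⟩,
    (Sof.neg_mdl_mul c φ).trans (e1 ▸ (Sof.neg_mdl_mul φ s).symm),
    (Sof.neg_mdl_mul s ψ).trans (e2 ▸ (Sof.neg_mdl_mul ψ c).symm), ?_,
    Eventually.of_forall fun i => ⟨?_, ?_⟩⟩
  · refine (((Sof.neg_mdl_mul φ ψ).add Sof.neg_mdl_one).sub
      ((Sof.neg_mdl_mul h c).add (Sof.neg_mdl_mul c h))).congr fun i => ?_
    rw [sub_eq_iff_eq_add'.1 e3, mdl_add, mdl_add]
    abel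
  · refine (sum_le_sum (g := fun _ => m ^ 2) fun p _ => ?_).trans_eq (by simp; ring)
    refine le_trans ?_ (pow_le_pow_left₀ (by positivity) (hs i p.2 p.1) 2)
    refine le_of_eq_of_le ?_ (sum_sq_le_sq_sum_of_nonneg fun _ _ => abs_nonneg _)
    simp only [diag_apply, mul_apply, conjTranspose_apply, star_trivial, sq, abs_mul_abs_self]
    rfl
  · refine (Nat.cast_le.2 (rank_le_card_width _)).trans ?_
    rw [Fintype.card_prod, Fintype.card_fin, Nat.cast_mul]
    gcongr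
    exact le_mul_of_one_le_right (by positivity) (one_le_pow₀ hm)

theorem data_fund (S : Sof G) {deg : ι → ℕ} {c : Matrix ι ι (ZG G)} {w w' : ι → ℤ} {n : ℕ}
    {z : Bar G} (R : IsResolution deg c w) (hn : ∀ a, deg a ≤ n) (hn0 : 0 < n)
    (R' : IsResolution (fun a => n - deg a) (cst c) w') (hz : IsFundCycle n z) :
    Data S deg (fun k : cells z => k.1.length - 1) c (Fintype.card (cells z) * (n + 1) ^ 2) := by
  obtain ⟨β, hβ, hA⟩ := exists_small R hn hn0 R' hz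
  obtain ⟨Ψ, h⟩ := exists_psi R
  obtain ⟨b1, b2, b3⟩ := psi_beta h hβ
  obtain ⟨t, t1, t2⟩ := exists_htpy R (Matrix.of fun a => Ψ (β a)) b1 b2 b3
  have h0 : (crd z ∘ₗ bdL) (sx []) = 0 := by
    change crd z (bdZ _) = 0
    rw [bdZ_nil, map_zero]
  refine data_of S (φ := Matrix.of fun a => crd z (β a)) (ψ := Matrix.of fun k => Ψ (sx k.1))
    (s := Matrix.of fun k => (crd z ∘ₗ bdL) (sx k.1)) (fun a => psi_hm (crd_hm z) (hβ a).1)
    (fun k b e => by rw [← h.hm _ b e]; rfl) t1 (fun k k' e => ?_) (funext fun a => ?_)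
    (funext fun k => ?_) ?_ (by linarith [n.cast_nonneg (α := ℝ)]) fun i v k => ?_
  · obtain ⟨_ | ⟨x, l⟩, hk⟩ := k
    · exact absurd (congrFun h0 k') e
    · exact (psi_len (crd_hm z) (bdZ_len (sx_len (x :: l))) k' e).symm
  · rw [← sum_smul_row]
    refine Eq.trans ?_ (crd_mul _ h0 (hA a)).symm
    change _ = crd z (bdZ _)
    rw [(hβ a).2, map_add, map_zsmul, psi_nil (crd_hm z), smul_zero, zero_add, map_sum]
    exact sum_congr rfl fun b _ => (map_smul (crd z) _ _).symm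
  · exact (crd_mul Ψ (psi_nil h.hm) (adm_bd (sx_mem _ (cell_adm k)))).trans (h.ch _).symm
  · rw [← t2]
    congr 1
    exact funext fun a => crd_mul Ψ (psi_nil h.hm) (hA a)
  · obtain ⟨σ, hσ, τ, g, h1, h2⟩ := cell_adm k
    refine (crd_small z _ v k.1).trans ?_
    rw [h2, tr_length]
    exact_mod_cast h1.length_le.trans_eq (hz.len σ hσ)

end

end Pool.Agent.P.MP_f30597_gt.SI
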