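import Pool.Agent.P.MP_f30597_gt.SI.PCap
import Pool.Agent.P.MP_f30597_gt.SI.Ret

/-! Small approximate retracts from a parametrised fundamental cycle. -/

namespace Pool.Agent.P.MP_f30597_gt.SI

open Finset Matrix Filter
open scoped Matrix.Norms.L2Operator

set_option linter.unusedSectionVars false

noncomputable section

namespace Par

variable {G ι : Type} [Group G] [DecidableEq G] [Fintype ι] [DecidableEq ι] {P : Par G}

section Mat

variable {κ κ' κ'' : Type} [Fintype κ] [DecidableEq κ] [Fintype κ'] [DecidableEq κ'] [Fintype κ'']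
  [DecidableEq κ'']

/-- the matrices with prescribed rows -/
def mat (A : κ → P.Fn (κ' → ZG G)) : P.S.Mat κ κ' :=
  fun i => loc (P.S.act i) fun p => (A p.1).1 (P.π i p.2)

theorem mat_bdd (A : κ → P.Fn (κ' → ZG G)) :
    ∃ (T : Finset G) (M : ℕ), ∀ k x, Bdd T M ((A k).1 x) := by
  obtain ⟨T, M, h⟩ := exists_bdd (fun p : κ × P.X => (A p.1).1 p.2)
    ((Set.finite_iUnion fun k => (A k).2.1).subset (by
      rintro _ ⟨p, rfl⟩; exact Set.mem_iUnion.2 ⟨p.1, p.2, rfl⟩))
  exact ⟨T, M, fun k x => h (k, x)⟩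

theorem nrm_mat (A : κ → P.Fn (κ' → ZG G)) : ∃ M : ℝ, ∀ i, ‖mat A i‖ ≤ M := by
  obtain ⟨T, M, h⟩ := mat_bdd A
  exact ⟨_, fun i => nrm_loc (P.S.act i) fun p => h p.1 _⟩

theorem neg_mat_mul (A : κ → P.Fn (κ' → ZG G)) (B : κ' → P.Fn (κ'' → ZG G))
    (C : κ → P.Fn (κ'' → ZG G)) (h : ∀ k x, (∑ k', (A k).1 x k' • B k').1 x = (C k).1 x) :
    P.S.Neg fun i => mat A i * mat B i - mat C i := by
  obtain ⟨T, M, hA⟩ := mat_bdd A
  obtain ⟨T', M', hB⟩ := mat_bdd B
  refine (Sof.neg_loc_mul (fun i p b => (hA p.1 _ b).1) fun i p b => (hB p.1 _ b).1).trans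
    (Sof.neg_of_rows ((Sof.ae_finset T fun g _ => Sof.ae_all fun k' => (B k').2.2 g).mono
      fun i v hv k => congrArg (pl (P.S.act i) v) ?_))
  rw [← h, sum_val]
  exact sum_congr rfl fun k' _ => by
    rw [smul_val]
    exact Finsupp.sum_congr fun g hg => congrArg _ (hv g ((hA k _ k').1 hg) k')

theorem deg_mat {dκ : κ → ℕ} {dκ' : κ' → ℕ} {j : ℤ} (A : κ → P.Fn (κ' → ZG G))
    (h : ∀ k x b, (A k).1 x b ≠ 0 → (dκ k : ℤ) = dκ' b + j) (i : P.S.Λ) :
    Deg (fun p => dκ p.1) (fun p => dκ' p.1) j (mat A i) := deg_loc _ fun p b e => h p.1 _ b e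

theorem row_cn (x : κ → ZG G) (y : Matrix κ κ' (ZG G)) (p : P.X) :
    (∑ k, x k • cn (P := P) (y k)).1 p = x ᵥ* y := by
  simp only [← map_smul, ← map_sum, vecMul_eq_sum]
  rfl

end Mat

variable (z : P.Fn (Bar G))

/-- a chain whose support is the set of all simplices -/
def zU : Bar G := ⟨occ z, fun l => if l ∈ occ z then 1 else 0, by simp⟩

/-- active cells -/
def Act (k : List G) (x : P.X) : Prop := ∃ σ ∈ occ z, ∃ τ ∈ σ.sublists.toFinset,
  nrm τ = k ∧ σ ∈ (z.1 ((τ.headD 1)⁻¹⁻¹ • x)).support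

theorem tame_act (k : List G) : P.Tame (Act z k) :=
  Tame.det ((occ z).biUnion fun σ => σ.sublists.toFinset)
    (fun τ _ => Tame.shift z.2 (τ.headD 1)⁻¹) fun _ _ e =>
      propext (exists_congr fun σ => and_congr_right fun hσ => exists_congr fun τ =>
        and_congr_right fun hτ => by rw [e τ (mem_biUnion.2 ⟨σ, hσ, hτ⟩)])

variable {z}

theorem act_adm {k : List G} {x : P.X} (h : Act z k x) : k ∈ AdmX z x := by
  obtain ⟨σ, -, τ, h1, h2, h3⟩ := h
  exact ⟨_, σ, τ, h3, by simpa using h1, h2.symm⟩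

theorem adm_act {l : List G} {x : P.X} (h : l ∈ AdmX z x) (h0 : l ≠ []) :
    Act z (nrm l) ((l.headD 1)⁻¹ • x) := by
  obtain ⟨g, σ, τ, h1, h2, rfl⟩ := h
  refine ⟨σ, mem_occ.2 ⟨_, h1⟩, τ, by simpa using h2, (nrm_tr g τ).symm, ?_⟩
  cases τ with
  | nil => exact absurd rfl h0
  | cons t τ => simpa [tr, smul_smul] using h1

theorem admX_adm {l : List G} {x : P.X} (h : l ∈ AdmX z x) : l ∈ Adm (zU z) := by
  obtain ⟨g, σ, τ, h1, h2, rfl⟩ := h
  exact ⟨σ, mem_occ.2 ⟨_, h1⟩, τ, g, h2, rfl⟩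

theorem admX_bd {l : List G} {x : P.X} (h : l ∈ AdmX z x) :
    ∀ m ∈ (bdZ (sx l)).support, m ∈ AdmX z x := by
  obtain ⟨g, σ, τ, h1, h2, rfl⟩ := h
  change _ ∈ Finsupp.supported ℤ ℤ (AdmX z x)
  rw [bdZ_sx]
  exact sum_mem fun i _ => zsmul_mem (Finsupp.single_mem_supported ℤ 1 (show _ ∈ AdmX z x from
    ⟨g, σ, τ.eraseIdx i, h1, (List.eraseIdx_sublist _ _).trans h2, List.eraseIdx_map _ _ _⟩)) _

open Classical in
variable (z) in
/-- rows on the active cells -/
def cut {κ : Type} (Φ : Bar G →ₗ[ZG G] (κ → ZG G)) (k : cells (zU z)) : P.Fn (κ → ZG G) :=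
  ⟨fun x => if Act z k.1 x then Φ (sx k.1) else 0,
    (tame_act z k.1).ite (tame_const _) (tame_const _)⟩

theorem crd_cut {κ : Type} (Φ : Bar G →ₗ[ZG G] (κ → ZG G)) (h : Φ (sx []) = 0) {x : P.X}
    {u : Bar G} (hu : ∀ l ∈ u.support, l ∈ AdmX z x) :
    (∑ k, crd (zU z) u k • cut z Φ k).1 x = Φ u :=
  sup_eq (S := AdmX z x) ((ev (F := κ → ZG G) x).toIntLinearMap ∘ₗ
    (Fintype.linearCombination (ZG G) (cut z Φ) ∘ₗ crd (zU z)).restrictScalars ℤ)
    (Φ.restrictScalars ℤ) (fun l hl => by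
    change (∑ k, crd (zU z) (sx l) k • cut z Φ k).1 x = Φ (sx l)
    rw [sum_eq_single ⟨_, adm_cell (admX_adm hl)⟩ (fun k _ hk => by
      rw [crd_sx, if_neg fun e => hk (Subtype.ext e.1), zero_smul]) (by simp), crd_sx]
    by_cases e : l = []
    · subst e
      rw [if_neg fun e => e.2 rfl, zero_smul, h]
      rfl
    · rw [if_pos ⟨rfl, fun e' => e (List.length_eq_zero_iff.1 (by rw [← nrm_length, e']; rfl))⟩,
        el_val]
      exact (congrArg _ (if_pos (adm_act hl e))).trans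
        ((map_smul Φ _ _).symm.trans (congrArg Φ (sx_nrm _)))) hu

open Classical in
theorem act_count {n : ℕ} (hz : ∀ x, z.1 x ∈ Len (n + 1)) {δ ε : ℝ} (hε : 0 < ε)
    (hδ : ∀ᶠ i in P.S.l, (∑ v, ((z.1 (P.π i v)).support.card : ℝ)) ≤ δ * P.S.N i) :
    ∀ᶠ i in P.S.l, ((univ.filter fun p : cells (zU z) × Fin (P.S.N i) =>
      Act z p.1.1 (P.π i p.2)).card : ℝ) ≤ 2 ^ (n + 1) * (δ + ε) * P.S.N i := by
  filter_upwards [hδ, (Sof.ae_finset ((occ z).biUnion fun σ => σ.sublists.toFinset) fun τ _ =>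
    z.2.2 (τ.headD 1)⁻¹).ev (show 0 < ε / ((occ z).card + 1) by positivity)] with i h1 h2
  obtain ⟨B, hB, h2⟩ : ∃ B : Finset (Fin (P.S.N i)), _ = B ∧
    (B.card : ℝ) ≤ ε / ((occ z).card + 1) * P.S.N i := ⟨_, rfl, h2⟩
  have h3 : (univ.filter fun p : cells (zU z) × Fin (P.S.N i) => Act z p.1.1 (P.π i p.2)).card ≤
      ∑ σ ∈ occ z, 2 ^ (n + 1) *
        ((univ.filter fun v => σ ∈ (z.1 (P.π i v)).support).card + B.card) := by
    refine (card_le_card_of_injOn (t := (occ z).biUnion fun σ => σ.sublists.toFinset.biUnion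
      fun τ => (univ.filter fun v => σ ∈ (z.1 ((τ.headD 1)⁻¹⁻¹ • P.π i v)).support).image
        fun v => (nrm τ, v)) (fun p => (p.1.1, p.2)) (fun p hp => ?_) fun p _ q _ e =>
          Prod.ext (Subtype.ext (Prod.ext_iff.1 e).1) (Prod.ext_iff.1 e).2).trans
      (card_biUnion_le.trans (sum_le_sum fun σ hσ => ?_))
    · obtain ⟨σ, h1, τ, h2, h3, h4⟩ := (mem_filter.1 hp).2
      exact mem_biUnion.2 ⟨σ, h1, mem_biUnion.2 ⟨τ, h2, mem_image.2
        ⟨p.2, mem_filter.2 ⟨mem_univ _, h4⟩, by rw [h3]⟩⟩⟩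
    · obtain ⟨x, hx⟩ := mem_occ.1 hσ
      refine (card_biUnion_le_card_mul _ _ _ fun τ hτ => card_image_le.trans ?_).trans
        (Nat.mul_le_mul_right _ ((List.toFinset_card_le _).trans_eq
          (by rw [List.length_sublists, hz x σ hx])))
      refine (card_le_card (t := (univ.filter fun v =>
        σ ∈ (z.1 (P.π i (P.S.act i (τ.headD 1)⁻¹ v))).support) ∪ B) fun v hv => ?_).trans
        ((card_union_le _ _).trans (Nat.add_le_add_right (card_le_card_of_injOn
          (P.S.act i (τ.headD 1)⁻¹) (fun v hv => by simpa using hv)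
          (P.S.act i _).injective.injOn) _))
      rw [mem_union, or_iff_not_imp_right, ← hB, mem_filter, not_and, not_not]
      intro e
      exact mem_filter.2 ⟨mem_univ _, by
        rw [e (mem_univ _) τ (mem_biUnion.2 ⟨σ, hσ, hτ⟩)]; exact (mem_filter.1 hv).2⟩
  have h4 : ∑ σ ∈ occ z, (univ.filter fun v => σ ∈ (z.1 (P.π i v)).support).card ≤
      ∑ v, (z.1 (P.π i v)).support.card := by
    simp only [card_filter]
    rw [sum_comm]
    refine sum_le_sum fun v _ => ?_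
    rw [← card_filter]
    exact card_le_card fun σ hσ => (mem_filter.1 hσ).2
  rw [← mul_sum, sum_add_distrib, sum_const, smul_eq_mul] at h3
  have h5 : ((occ z).card : ℝ) * B.card ≤ ε * P.S.N i :=
    calc _ ≤ ((occ z).card + 1) * (ε / ((occ z).card + 1) * P.S.N i) := by gcongr; linarith
      _ = _ := by field_simp
  refine (Nat.cast_le.2 (h3.trans (Nat.mul_le_mul_left _ (Nat.add_le_add_right h4 _)))).trans ?_
  push_cast
  rw [mul_assoc, add_mul]
  gcongr

theorem par_data {deg : ι → ℕ} {c : Matrix ι ι (ZG G)} {w w' : ι → ℤ} {n : ℕ}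
    {Ψ : Bar G →ₗ[ZG G] (ι → ZG G)} (R : IsResolution deg c w) (hn : ∀ a, deg a ≤ n)
    (R' : IsResolution (fun a => n - deg a) (cst c) w') (h : IsPsi deg c w Ψ)
    (hz : PF Ψ n w' z) {δ ε : ℝ} (hδ0 : 0 ≤ δ) (hε : 0 < ε)
    (hδ : ∀ᶠ i in P.S.l, (∑ v, ((z.1 (P.π i v)).support.card : ℝ)) ≤ δ * P.S.N i) :
    Data P.S deg (fun k : cells (zU z) => k.1.length - 1) c
      (2 ^ (n + 1) * (n + 1) ^ 2 * (δ + 2 * ε)) := by
  classical
  obtain ⟨β, hβ⟩ := exists_smallP R hn R' h hz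
  have e1 : ∀ a, (1 : Matrix ι ι (ZG G)) a = Pi.single a 1 := fun a => by
    ext b : 1; simp [one_apply, Pi.single_apply, eq_comm]
  have b0 : ∀ {κ : Type} (Φ : Bar G →ₗ[ZG G] (κ → ZG G)), Φ (sx []) = 0 → ∀ a,
      ∑ b, c a b • mapL Φ (β b) = mapL Φ (mapL bdL (β a)) := fun Φ hΦ a => by
    rw [(hβ a).2.1, map_add, map_zsmul, map_sum,
      show mapL Φ (cn (sx [])) = 0 from Subtype.ext (funext fun _ => hΦ), smul_zero, zero_add]
    simp only [map_smul]
  obtain ⟨t, ht⟩ := genF deg (-c) (fun a b e => R.graded a b (neg_ne_zero.1 e))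
    (by rw [neg_mul_neg, R.sq]) c.vecMulLinear (fun k => Hm deg k ⊓ augK w)
    (fun k => Hm deg (k + 1)) (hm_le R) (hm_fill R)
    (fun a => mapL Ψ (β a) - cn ((1 : Matrix ι ι (ZG G)) a))
    (fun a x => ⟨sub_mem (psi_hm h.hm ((hβ a).1 x)) (e1 a ▸ pat_hom_single deg a), by
      change aug w (Ψ ((β a).1 x) - (1 : Matrix ι ι (ZG G)) a) = 0
      rw [pat_aug_sub, h.au, e1, pat_aug_single, sub_eq_zero]
      refine (congrFun (congrArg DFunLike.coe (congrFun (congrArg Subtype.val (hβ a).2.1) x))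
        []).trans ?_
      change (w a • sx [] + (∑ b, c a b • β b).1 x : Bar G) [] = _
      rw [Finsupp.add_apply, sum_val, Finsupp.finsetSum_apply, sum_eq_zero fun b _ =>
        len_at_nil ((pc (Len (deg b + 1))).smul_mem (c a b) (hβ b).1 x)]
      simp⟩)
    fun a => by
      simp only [Matrix.neg_apply, neg_smul, smul_sub, sum_neg_distrib, sum_sub_distrib, map_sub,
        b0 Ψ (psi_nil h.hm)]
      rw [← neg_sub', add_neg_eq_zero]
      congr 1
      · exact Subtype.ext (funext fun x => h.ch _)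
      · refine Subtype.ext (funext fun x => Eq.trans ?_ (row_cn _ _ x).symm)
        change ((1 : Matrix ι ι (ZG G)) * c : Matrix _ _ _) a =
          (c * (1 : Matrix ι ι (ZG G)) : Matrix _ _ _) a
        rw [one_mul, mul_one]
  have h0 : (crd (zU z) ∘ₗ bdL) (sx []) = 0 := by
    change crd _ (bdZ _) = 0
    rw [bdZ_nil, map_zero]
  obtain ⟨M1, h1⟩ := nrm_mat fun a => mapL (crd (zU z)) (β a)
  obtain ⟨M2, h2⟩ := nrm_mat (cut z Ψ)
  obtain ⟨M3, h3⟩ := nrm_mat t
  obtain ⟨M4, h4⟩ := nrm_mat (cut z (crd (zU z) ∘ₗ bdL))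
  have n1 := fun {κ : Type} [Fintype κ] [DecidableEq κ] (Φ : Bar G →ₗ[ZG G] (κ → ZG G))
    (hΦ : Φ (sx []) = 0) => neg_mat_mul (fun a => mapL (crd (zU z)) (β a)) (cut z Φ)
      (fun a => mapL Φ (β a)) fun a x => crd_cut Φ hΦ ((hβ a).2.2 x)
  refine ⟨max (max M1 M2) (max M3 M4), mat fun a => mapL (crd (zU z)) (β a), mat (cut z Ψ), mat t,
    mat (cut z (crd (zU z) ∘ₗ bdL)),
    fun i => ⟨by simp [h1 i], by simp [h2 i], by simp [h3 i], by simp [h4 i]⟩,
    fun i => ⟨isInt_loc _ _, isInt_loc _ _, isInt_loc _ _, isInt_loc _ _⟩,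
    fun i => ⟨deg_mat (dκ := deg) (dκ' := fun k : cells (zU z) => k.1.length - 1) _
        (fun p x b e => ?_) i,
      deg_mat (dκ := fun k : cells (zU z) => k.1.length - 1) (dκ' := deg) _ (fun p x b e => ?_) i,
      deg_mat (dκ := deg) (dκ' := deg) _ (fun p x b e => ?_) i,
      deg_mat (dκ := fun k : cells (zU z) => k.1.length - 1)
        (dκ' := fun k : cells (zU z) => k.1.length - 1) _ (fun p x b e => ?_) i⟩, ?_, ?_, ?_, ?_⟩
  · simp [← psi_hm (crd_hm _) ((hβ p).1 _) b e]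
  · simp only [cut] at e
    split_ifs at e
    · simp [← h.hm _ b e]
    · exact absurd rfl e
  · simp [(ht p).1 _ b e]
  · simp only [cut] at e
    split_ifs at e
    · obtain ⟨_ | ⟨y, l⟩, hk⟩ := p
      · exact absurd (congrFun h0 b) e
      · simp [← psi_len (crd_hm _) (bdZ_len (sx_len (y :: l))) b e]
    · exact absurd rfl e
  · exact (neg_mat_mul (fun a => cn (c a)) _ _ fun a x => congrFun (congrArg Subtype.val
      (b0 _ (psi_nil (crd_hm _)) a)) x).trans (n1 _ h0).symm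
  · refine (neg_mat_mul _ _ (cut z (Ψ ∘ₗ bdL)) fun k x => ?_).trans
      (neg_mat_mul _ (fun a => cn (c a)) _ fun k x => ?_).symm
    · simp only [cut]
      split_ifs with e
      · exact crd_cut Ψ (psi_nil h.hm) (admX_bd (act_adm e))
      · simp
    · rw [row_cn]
      simp only [cut]
      split_ifs
      · exact h.ch _
      · exact zero_vecMul _
  · refine (((n1 Ψ (psi_nil h.hm)).add Sof.neg_mdl_one).sub
      ((neg_mat_mul t (fun a => cn (c a)) (fun a => mapL c.vecMulLinear (t a))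
        fun a x => row_cn _ _ x).add (neg_mat_mul (fun a => cn (c a)) t
          (fun a => ∑ b, c a b • t b) fun a x => rfl))).congr fun i => ?_
    have : mat (fun a => mapL Ψ (β a)) i = mdl (P.S.act i) 1 +
        (mat (fun a => mapL c.vecMulLinear (t a)) i + mat (fun a => ∑ b, c a b • t b) i) := by
      funext p
      refine Eq.trans (congrArg (pl _ p.2) ?_) ((pl_add _ _ _ _).trans
        (congrArg _ (pl_add _ _ _ _)))
      have := (ht p.1).2
      simp only [Matrix.neg_apply, neg_smul, sum_neg_distrib] at this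
      exact congrFun (congrArg Subtype.val
        (sub_eq_iff_eq_add'.1 (eq_add_neg_iff_add_eq.1 this).symm)) _
    rw [this]
    change _ = _ - 1 - (mat t i * mat (fun a => cn (c a)) i + mat (fun a => cn (c a)) i * mat t i)
    abel
  · filter_upwards [act_count hz.len hε hδ, (n1 _ (psi_nil (crd_hm (zU z)))).symm.ev hε]
      with i a1 a2
    obtain ⟨A, hA, a1⟩ : ∃ A : Finset (cells (zU z) × Fin (P.S.N i)), _ = A ∧
      (A.card : ℝ) ≤ 2 ^ (n + 1) * (δ + ε) * P.S.N i := ⟨_, rfl, a1⟩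
    have a0 : ∀ p, p ∈ A ↔ Act z p.1.1 (P.π i p.2) := fun p => by simp [← hA]
    have a3 : ∀ p ∉ A, mat (cut z (crd (zU z))) i p = 0 ∧
        mat (cut z (crd (zU z) ∘ₗ bdL)) i p = 0 := fun p hp =>
      ⟨(congrArg (pl _ p.2) (if_neg fun e => hp ((a0 p).2 e))).trans (pl_zero _ _),
        (congrArg (pl _ p.2) (if_neg fun e => hp ((a0 p).2 e))).trans (pl_zero _ _)⟩
    have a4 : (1 : ℝ) ≤ (n + 1) ^ 2 := one_le_pow₀ (by linarith [n.cast_nonneg (α := ℝ)])
    have a5 : (1 : ℝ) ≤ 2 ^ (n + 1) := one_le_pow₀ one_le_two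
    have a6 : (0 : ℝ) ≤ ε * P.S.N i := by positivity
    constructor
    · refine le_trans (b := ∑ _p ∈ A, ((n : ℝ) + 1) ^ 2) ?_ ?_
      · rw [trace, ← sum_subset (subset_univ A) fun p _ hp => by simp [mul_apply, (a3 p hp).2]]
        refine sum_le_sum fun p hp => ?_
        obtain ⟨σ, hσ, τ, g, h1, h2⟩ := cell_adm p.1
        obtain ⟨x, hx⟩ := mem_occ.1 hσ
        have h5 := crd_small (zU z) (P.S.act i) p.2 p.1.1
        refine le_trans ?_ (pow_le_pow_left₀ (by positivity) (h5.trans (by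
          rw [h2, tr_length]; exact_mod_cast h1.length_le.trans_eq (hz.len x σ hx))) 2)
        refine le_of_eq_of_le ?_ (sum_sq_le_sq_sum_of_nonneg fun _ _ => abs_nonneg _)
        have h6 : mat (cut z (crd (zU z) ∘ₗ bdL)) i p = _ :=
          congrArg (pl _ p.2) (if_pos ((a0 p).1 hp))
        simp only [diag_apply, mul_apply, conjTranspose_apply, star_trivial, sq, abs_mul_abs_self,
          h6]
        rfl
      · rw [sum_const, nsmul_eq_mul]
        calc _ ≤ 2 ^ (n + 1) * (δ + 2 * ε) * P.S.N i * ((n : ℝ) + 1) ^ 2 := by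
              gcongr; exact a1.trans (by gcongr; linarith)
          _ = _ := by ring
    · have a7 := (rk_add _ _).trans (Nat.add_le_add_left ((rank_mul_le_right
        (mat (fun a => mapL (crd (zU z)) (β a)) i) (mat (cut z (crd (zU z))) i)).trans
          (rank_le_card_of_support_subset _ A fun p hp => by_contra fun e => hp (a3 p e).1))
          (mat (fun a => mapL (crd (zU z)) (β a)) i -
            mat (fun a => mapL (crd (zU z)) (β a)) i * mat (cut z (crd (zU z))) i).rank)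
      rw [sub_add_cancel] at a7
      calc _ ≤ ε * P.S.N i + 2 ^ (n + 1) * (δ + ε) * P.S.N i :=
            (Nat.cast_le.2 a7).trans (by push_cast; gcongr)
        _ ≤ 2 ^ (n + 1) * (δ + 2 * ε) * P.S.N i * 1 := by nlinarith
        _ ≤ 2 ^ (n + 1) * (δ + 2 * ε) * P.S.N i * ((n : ℝ) + 1) ^ 2 := by gcongr
        _ = _ := by ring

end Par

end

end Pool.Agent.P.MP_f30597_gt.SI
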